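import Pool.Agent.Q20.RL.Lod

/-!
# Products of Artin L-functions: definitions and statement
-/

set_option autoImplicit false
set_option linter.unusedSectionVars false

namespace Pool.Agent.Q20.RS.RL

open NumberField IsDedekindDomain

/-- a finite normal extension `N` of `K` in `K̄` and a finite set `T` of primes of `N` which is stable
under `Gal(N/K)` and contains a prime above every prime of `K` which ramifies in `N` -/
structure Lay (K : Type) [Field K] [NumberField K] : Type where
  /-- the field -/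
  N : Sub K
  [fin : FiniteDimensional K (NFd N)]
  [nor : Normal K (NFd N)]
  /-- the finite places above `S` -/
  T : Finset (HeightOneSpectrum (𝓞 (NFd N)))
  stable : Stable K T
  ram : ContainsRamified K T

attribute [instance] Lay.fin Lay.nor

section
variable {K : Type} [Field K] [NumberField K]

open scoped Classical in
/-- the function on `Gal(N/F)` with inflation `χ` -/
noncomputable def Lay.fn (P : Lay K) {F : Sub K} (χ : Fn F) (y : NFd P.N ≃ₐ[SFd P.N F] NFd P.N) : ℂ :=
  if h : ∃ g : GalF F, Extends y g then χ h.choose else 0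

/-- **The Artin L-function** `L_S(s, χ)` of a character `χ` of `Gal(K̄/F)`, `Re s > 1` -/
noncomputable def Lay.L (P : Lay K) {F : Sub K} (χ : Fn F) (s : ℂ) : ℂ := artinLS P.T (P.fn χ) s

/-- `χ` is the character of a representation of `Gal(N/F)`, `F ⊆ N` -/
def Lay.Has (P : Lay K) {F : Sub K} (χ : Fn F) : Prop :=
  F ≤ P.N ∧ ∃ (n : ℕ) (ρ : Representation ℂ (NFd P.N ≃ₐ[SFd P.N F] NFd P.N) (Fin n → ℂ)), HasCh ρ χ

end

/-- a linear character with an exponent -/
structure Factor (K : Type) [Field K] : Type where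
  /-- the field -/
  F : Sub K
  fin : FinExt F
  /-- the character -/
  ψ : Lin F
  /-- the exponent -/
  e : ℤ

/-- (0) The number `A_S(χ, φ)` of a character `χ` of `Gal(K̄/F)` at a sufficiently large level is the
number of every representation of `Gal(N/F)` with character `χ` (which exists), and is not zero -/
def WellDefined (K : Type) [Field K] [NumberField K] : Prop :=
  ∀ F : Sub K, FinExt F → ∀ χ : Fn F, Char χ → Eventually fun ℓ : Lvl K =>
    (∃ z, ℓ.IsA χ z) ∧ ∀ z, ℓ.IsA χ z → ℓ.A χ = z ∧ z ≠ 0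

/-- (5) **Product formulas** for the Artin L-functions and Stark's numbers of the characters in `V` -/
def Products (K : Type) [Field K] [NumberField K] : Prop :=
  ∀ (M : ℕ) (T : Set ℕ) (F : Sub K) (χ : Fn F), 0 < M → FinExt F → Char χ → InV T χ →
    ∃ (m : ℕ) (l : List (Factor K)), 0 < m ∧ (∀ t ∈ l, t.ψ.cls M T) ∧ Eventually fun ℓ : Lvl K =>
      (∀ s : ℂ, 1 < s.re → ℓ.L χ s ^ m = (l.map fun t => ℓ.L t.ψ.fn s ^ t.e).prod) ∧
      ℓ.A χ ^ m = (l.map fun t => ℓ.A t.ψ.fn ^ t.e).prod

/-- `L_S(s, χ)^m = ∏ L_S(s, ψ)^e` -/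
def Lay.Product {K : Type} [Field K] [NumberField K] (P : Lay K) {F : Sub K} (χ : Fn F) (m : ℕ)
    (l : List (Factor K)) (s : ℂ) : Prop :=
  P.L χ s ^ m = (l.map fun t => P.L t.ψ.fn s ^ t.e).prod

/-- (6) **Products of L-functions**, for the characters over all number fields `F`: the character
induced to `ℚ` is in `V`, i.e. satisfies the local condition, if and only if a power of `L_S(s, χ)` is
a product of powers of L-functions of linear characters unramified outside `T` (for all sufficiently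
large `N`, or for one `N` and all large real `s`) -/
def LFunctions : Prop :=
  ∀ (M : ℕ) (T : Set ℕ) (F : Sub ℚ) (χ : Fn F), 0 < M → FinExt F → Char χ → List.TFAE [
    InV T (ind (base ℚ) F χ),
    Loc T (ind (base ℚ) F χ),
    ∃ (m : ℕ) (l : List (Factor ℚ)), 0 < m ∧ (∀ t ∈ l, t.ψ.cls M T) ∧
      ∃ N₀ : Sub ℚ, FinExt N₀ ∧ ∀ P : Lay ℚ, N₀ ≤ P.N → P.Has χ ∧
        (∀ t ∈ l, P.Has t.ψ.fn) ∧ ∀ s : ℂ, 1 < s.re → P.Product χ m l s,
    ∃ (m : ℕ) (l : List (Factor ℚ)), 0 < m ∧ (∀ t ∈ l, t.ψ.unr T) ∧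
      ∃ (P : Lay ℚ) (C : ℝ), P.Has χ ∧ (∀ t ∈ l, P.Has t.ψ.fn) ∧
        ∀ s : ℝ, C < s → P.Product χ m l s]

end Pool.Agent.Q20.RS.RL
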