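import Pool.Agent.Q20.RL.Lop
import Pool.Agent.Q20.RS.Prt
import Pool.Agent.Q20.LG.Conv

/-!
# Stark's numbers as additive inductive functions with values in germs
-/

set_option autoImplicit false
set_option linter.unusedSectionVars false

namespace Pool.Agent.Q20.RS.RL

open NumberField IsDedekindDomain
open Pool.Agent.Q246.BI (Smooth IsCharacter induced)
open Pool.Agent.Q20.TR (bt)
open scoped Classical

section
variable {K : Type} [Field K] [NumberField K]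

theorem mem_large (P : Lvl K → Prop) : {ℓ | P ℓ} ∈ large K ↔ Eventually P := by
  have hne : Nonempty {N₀ : Sub K // FinExt N₀} := ⟨⟨base K, fin_base⟩⟩
  have hdir : Directed (· ≥ ·) fun N₀ : {N₀ : Sub K // FinExt N₀} =>
      Filter.principal {ℓ : Lvl K | N₀.1 ≤ ℓ.N} := by
    intro a b
    have ha : FiniteDimensional K a.1 := a.2
    have hb : FiniteDimensional K b.1 := b.2
    have hab : FinExt (a.1 ⊔ b.1) := IntermediateField.finiteDimensional_sup a.1 b.1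
    refine ⟨⟨a.1 ⊔ b.1, hab⟩, ?_, ?_⟩
    · exact Filter.principal_mono.2 fun ℓ hℓ => le_sup_left.trans (Set.mem_ofPred_eq ▸ hℓ)
    · exact Filter.principal_mono.2 fun ℓ hℓ => le_sup_right.trans (Set.mem_ofPred_eq ▸ hℓ)
  unfold large
  rw [Filter.mem_iInf_of_directed hdir]
  constructor
  · rintro ⟨N₀, h⟩
    exact ⟨N₀.1, N₀.2, fun ℓ hℓ => h hℓ⟩
  · rintro ⟨N₀, h0, h⟩
    exact ⟨⟨N₀, h0⟩, fun ℓ hℓ => h ℓ hℓ⟩

theorem eventually_iff (P : Lvl K → Prop) : (∀ᶠ ℓ in large K, P ℓ) ↔ Eventually P := mem_large P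

/-- the level functions of characters and their conjugates -/
theorem lev_conj {F : Sub K} (hF : FinExt F) {χ : Fn F} (hχ : Char χ) (σ : ℂ ≃+* ℂ) :
    ∃ N₀ : Sub K, FinExt N₀ ∧ ∀ ℓ : Lvl K, N₀ ≤ ℓ.N →
      ∃ (f : (ℓ.old.N ≃ₐ[K] ℓ.old.N) → ℂ) (h1 : f ∈ PP ℓ.old.θ)
        (h2 : (fun g => σ (f g)) ∈ PP ℓ.old.θ),
        (∀ g, induced (bt K) F χ g = f (rN ℓ.old.N g)) ∧
        ℓ.A χ = val ℓ.old.θ ⟨f, h1⟩ ∧ ℓ.A (conj σ χ) = val ℓ.old.θ ⟨_, h2⟩ := by
  obtain ⟨N₁, hN₁, hF₁, h1⟩ := exists_lev hF hχ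
  refine ⟨N₁, hN₁, fun ℓ hℓ => ?_⟩
  obtain ⟨n, ρ, hρ⟩ := h1 ℓ.old hℓ
  exact ℓ.old.exists_conj (hF₁.trans hℓ) hρ σ

theorem char_conj_inv {F : Sub K} {χ : Fn F} (h : Char χ) (a b : GalF F) :
    χ (b⁻¹ * a * b) = χ a := by
  obtain ⟨n, τ, -, hτ⟩ := h
  rw [hτ, hτ, map_mul, map_mul, map_inv]
  change (((τ b)⁻¹ * τ a * τ b : GL (Fin n) ℂ) : Matrix (Fin n) (Fin n) ℂ).trace = _
  rw [Units.val_mul, Units.val_mul, Matrix.trace_mul_comm, ← mul_assoc, Units.mul_inv, one_mul]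

theorem plus_char {F : Sub K} (hF : FinExt F) {χ χ' : Fn F} (h : Char χ) (h' : Char χ') :
    Char (plus χ χ') := by
  have : FiniteDimensional K F := hF
  exact (Pool.Agent.Q20.LG.isChar_iff F _).2
    (((Pool.Agent.Q20.LG.isChar_iff F _).1 h).add ((Pool.Agent.Q20.LG.isChar_iff F _).1 h'))

theorem ind_char' {F F' : Sub K} (hF : FinExt F) (hF' : FinExt F') {χ : Fn F'} (h : Char χ) :
    Char (ind F F' χ) := by
  have : FiniteDimensional K F := hF
  exact Pool.Agent.Q20.LG.isCharacter_ind F F' hF' h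

theorem induced_plus {F : Sub K} (hF : FinExt F) {χ χ' : Fn F} (h : Char χ) (h' : Char χ')
    (g : (bt K).fixingSubgroup) :
    induced (bt K) F (plus χ χ') g = induced (bt K) F χ g + induced (bt K) F χ' g := by
  have h1 := (Pool.Agent.Q20.LG.indF (bt K) F hF).map_add ⟨χ, char_virt hF h⟩ ⟨χ', char_virt hF h'⟩
  exact congrFun (congrArg Subtype.val h1) g

/-- **Stark's numbers of sums and induced characters** at all large levels -/
theorem A_plus {F : Sub K} (hF : FinExt F) {χ χ' : Fn F} (h : Char χ) (h' : Char χ') :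
    Eventually fun ℓ : Lvl K => ℓ.A (plus χ χ') = ℓ.A χ * ℓ.A χ' := by
  obtain ⟨N₁, hN₁, h1⟩ := lev_conj hF h (RingEquiv.refl ℂ)
  obtain ⟨N₂, hN₂, h2⟩ := lev_conj hF h' (RingEquiv.refl ℂ)
  obtain ⟨N₃, hN₃, h3⟩ := lev_conj hF (plus_char hF h h') (RingEquiv.refl ℂ)
  have hN₁' : FiniteDimensional K N₁ := hN₁
  have hN₂' : FiniteDimensional K N₂ := hN₂
  have hN₃' : FiniteDimensional K N₃ := hN₃
  have h12 : FiniteDimensional K (N₁ ⊔ N₂ : Sub K) := IntermediateField.finiteDimensional_sup N₁ N₂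
  refine ⟨N₁ ⊔ N₂ ⊔ N₃, IntermediateField.finiteDimensional_sup _ _, fun ℓ hℓ => ?_⟩
  obtain ⟨f₁, a₁, -, b₁, c₁, -⟩ := h1 ℓ ((le_sup_left.trans le_sup_left).trans hℓ)
  obtain ⟨f₂, a₂, -, b₂, c₂, -⟩ := h2 ℓ ((le_sup_right.trans le_sup_left).trans hℓ)
  obtain ⟨f₃, a₃, -, b₃, c₃, -⟩ := h3 ℓ (le_sup_right.trans hℓ)
  have e : f₃ = f₁ + f₂ := by
    funext y
    obtain ⟨g, rfl⟩ := rN_surjective (N := ℓ.old.N) y
    rw [← b₃, induced_plus hF h h', b₁, b₂]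
    rfl
  rw [c₁, c₂, c₃, ← val_add]
  congr 1
  exact Subtype.ext e

theorem A_ind {F F' : Sub K} (hle : F ≤ F') (hF' : FinExt F') {χ : Fn F'} (h : Char χ) :
    Eventually fun ℓ : Lvl K => ℓ.A (ind F F' χ) = ℓ.A χ := by
  have hfd' : FiniteDimensional K F' := hF'
  have hF : FinExt F := FiniteDimensional.of_injective (IntermediateField.inclusion hle).toLinearMap
    (IntermediateField.inclusion hle).injective
  obtain ⟨N₁, hN₁, h1⟩ := lev_conj hF' h (RingEquiv.refl ℂ)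
  obtain ⟨N₂, hN₂, h2⟩ := lev_conj hF (ind_char' hF hF' h) (RingEquiv.refl ℂ)
  have hN₁' : FiniteDimensional K N₁ := hN₁
  have hN₂' : FiniteDimensional K N₂ := hN₂
  refine ⟨N₁ ⊔ N₂, IntermediateField.finiteDimensional_sup _ _, fun ℓ hℓ => ?_⟩
  obtain ⟨f₁, a₁, -, b₁, c₁, -⟩ := h1 ℓ (le_sup_left.trans hℓ)
  obtain ⟨f₂, a₂, -, b₂, c₂, -⟩ := h2 ℓ (le_sup_right.trans hℓ)
  have h4 : induced (bt K) F (ind F F' χ) = induced (bt K) F' χ :=
    Pool.Agent.Q20.LG.induced_trans (bt K) F F' bot_le hle hF hF' (char_conj_inv h)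
  have e : f₂ = f₁ := by
    funext y
    obtain ⟨g, rfl⟩ := rN_surjective (N := ℓ.old.N) y
    rw [← b₂, h4, b₁]
  rw [c₁, c₂]
  congr 1
  exact Subtype.ext e

theorem A_ne {F : Sub K} (hF : FinExt F) {χ : Fn F} (h : Char χ) :
    Eventually fun ℓ : Lvl K => ℓ.A χ ≠ 0 := by
  obtain ⟨N₁, hN₁, h1⟩ := lev_conj hF h (RingEquiv.refl ℂ)
  refine ⟨N₁, hN₁, fun ℓ hℓ => ?_⟩
  obtain ⟨f₁, a₁, -, b₁, c₁, -⟩ := h1 ℓ hℓ
  rw [c₁]
  exact val_ne _ _

theorem Eventually.and {P Q : Lvl K → Prop} (h : Eventually P) (h' : Eventually Q) :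
    Eventually fun ℓ => P ℓ ∧ Q ℓ :=
  (eventually_iff _).1 (((eventually_iff _).2 h).and ((eventually_iff _).2 h'))

theorem Eventually.mono {P Q : Lvl K → Prop} (h : Eventually P) (h' : ∀ ℓ, P ℓ → Q ℓ) :
    Eventually Q := by
  obtain ⟨N₀, h0, h1⟩ := h
  exact ⟨N₀, h0, fun ℓ hℓ => h' ℓ (h1 ℓ hℓ)⟩

end

section cl

theorem cl_of_ne (H : Subgroup ℂˣ) {z : ℂ} (hz : z ≠ 0) :
    cl H z = Additive.ofMul (QuotientGroup.mk (Units.mk0 z hz)) := by
  unfold cl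
  rw [dif_neg hz]

theorem cl_mul (H : Subgroup ℂˣ) {y z : ℂ} (hy : y ≠ 0) (hz : z ≠ 0) :
    cl H (y * z) = cl H y + cl H z := by
  rw [cl_of_ne H hy, cl_of_ne H hz, cl_of_ne H (mul_ne_zero hy hz), ← ofMul_mul,
    ← QuotientGroup.mk_mul]
  congr 2
  exact Units.ext rfl

theorem cl_zero (H : Subgroup ℂˣ) {z : ℂ} (hz : z ≠ 0) : cl H z = 0 ↔ Units.mk0 z hz ∈ H := by
  rw [cl_of_ne H hz, ofMul_eq_zero, QuotientGroup.eq_one_iff]

theorem cl_surj (H : Subgroup ℂˣ) (b : Quot H) : ∃ z : ℂˣ, cl H z = b := by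
  obtain ⟨z, hz⟩ := QuotientGroup.mk_surjective (Additive.toMul b)
  refine ⟨z, ?_⟩
  rw [cl_of_ne H z.ne_zero]
  have h1 : Units.mk0 (z : ℂ) z.ne_zero = z := Units.ext rfl
  rw [h1, hz, ofMul_toMul]

theorem cl_pow (H : Subgroup ℂˣ) {z : ℂ} (hz : z ≠ 0) (n : ℕ) : cl H (z ^ n) = n • cl H z := by
  rw [cl_of_ne H hz, cl_of_ne H (pow_ne_zero n hz), ← ofMul_pow, ← QuotientGroup.mk_pow]
  congr 2
  exact Units.ext rfl

theorem quot_tfd (H : Subgroup ℂˣ) (hH : ∀ (z : ℂˣ) (m : ℕ), 0 < m → z ^ m ∈ H → z ∈ H) :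
    TorsionFreeDivisible (Quot H) := by
  refine ⟨fun n b hn => ?_, fun m b hm h => ?_⟩
  · obtain ⟨z, rfl⟩ := cl_surj H b
    obtain ⟨y, hy⟩ := IsAlgClosed.exists_pow_nat_eq (z : ℂ) hn
    have hy0 : y ≠ 0 := by
      rintro rfl
      rw [zero_pow hn.ne'] at hy
      exact z.ne_zero hy.symm
    exact ⟨cl H y, by rw [← cl_pow H hy0, hy]⟩
  · obtain ⟨z, rfl⟩ := cl_surj H b
    rw [← cl_pow H z.ne_zero, cl_zero H (pow_ne_zero m z.ne_zero)] at h
    rw [cl_zero H z.ne_zero]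
    have h1 : Units.mk0 (z : ℂ) z.ne_zero = z := Units.ext rfl
    have h2 : Units.mk0 ((z : ℂ) ^ m) (pow_ne_zero m z.ne_zero) = z ^ m :=
      Units.ext (Units.val_pow_eq_pow_val z m).symm
    rw [h1]
    rw [h2] at h
    exact hH z m hm h

theorem tor_pow (z : ℂˣ) (m : ℕ) (hm : 0 < m) (h : z ^ m ∈ CommGroup.torsion ℂˣ) :
    z ∈ CommGroup.torsion ℂˣ := by
  change IsOfFinOrder (z ^ m) at h
  change IsOfFinOrder z
  exact h.of_pow hm.ne'

theorem alg_pow (z : ℂˣ) (m : ℕ) (hm : 0 < m) (h : z ^ m ∈ algUnits) : z ∈ algUnits := by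
  change IsAlgebraic ℚ ((z ^ m : ℂˣ) : ℂ) at h
  rw [Units.val_pow_eq_pow_val] at h
  exact h.of_pow hm

theorem germ_tfd {X B : Type} [AddCommGroup B] (l : Filter X) (h : TorsionFreeDivisible B) :
    TorsionFreeDivisible (Filter.Germ l B) := by
  refine ⟨fun n b hn => ?_, fun m b hm hb => ?_⟩
  · induction b using Filter.Germ.inductionOn with
    | h f =>
      choose c hc using fun x => h.1 n (f x) hn
      refine ⟨(c : Filter.Germ l B), ?_⟩
      have h1 : n • (c : Filter.Germ l B) = ((n • c : X → B) : Filter.Germ l B) := rfl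
      rw [h1]
      exact Filter.Germ.coe_eq.2 (Filter.Eventually.of_forall hc)
  · induction b using Filter.Germ.inductionOn with
    | h f =>
      have h1 : m • (f : Filter.Germ l B) = ((m • f : X → B) : Filter.Germ l B) := rfl
      have h2 : (0 : Filter.Germ l B) = ((0 : X → B) : Filter.Germ l B) := rfl
      rw [h1, h2, Filter.Germ.coe_eq] at hb
      rw [h2, Filter.Germ.coe_eq]
      exact hb.mono fun x hx => h.2 m (f x) hm hx

end cl

section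
variable {K : Type} [Field K] [NumberField K]

theorem germ_eq {B : Type} [AddCommGroup B] {u v : Lvl K → B}
    (h : Eventually fun ℓ => u ℓ = v ℓ) :
    (u : Filter.Germ (large K) B) = (v : Filter.Germ (large K) B) :=
  Filter.Germ.coe_eq.2 ((eventually_iff _).2 h)

theorem germ_zero {B : Type} [AddCommGroup B] {u : Lvl K → B} :
    (u : Filter.Germ (large K) B) = 0 ↔ Eventually fun ℓ => u ℓ = 0 := by
  have h2 : (0 : Filter.Germ (large K) B) = ((0 : Lvl K → B) : Filter.Germ (large K) B) := rfl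
  rw [h2, Filter.Germ.coe_eq]
  exact eventually_iff _

theorem number_addInd (H : Subgroup ℂˣ) : AddInd (number (K := K) H) := by
  refine ⟨fun F hF χ χ' h h' => ?_, fun F F' hle hF' χ h => ?_⟩
  · have h1 := ((A_ne hF h).and (A_ne hF h')).and (A_plus hF h h')
    exact germ_eq (h1.mono fun ℓ hℓ => by
      rw [hℓ.2, cl_mul H hℓ.1.1 hℓ.1.2])
  · exact germ_eq ((A_ind hle hF' h).mono fun ℓ hℓ => by rw [hℓ])

theorem defect_addInd (H : Subgroup ℂˣ) (σ : ℂ ≃+* ℂ) : AddInd (defect (K := K) H σ) := by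
  refine ⟨fun F hF χ χ' h h' => ?_, fun F F' hle hF' χ h => ?_⟩
  · have hc := conj_character h σ
    have hc' := conj_character h' σ
    have h1 := ((A_ne hF h).and (A_ne hF h')).and (A_plus hF h h')
    have h2 := ((A_ne hF hc).and (A_ne hF hc')).and (A_plus hF hc hc')
    have e : conj σ (plus χ χ') = plus (conj σ χ) (conj σ χ') := funext fun g => map_add σ _ _
    refine germ_eq ((h1.and h2).mono fun ℓ hℓ => ?_)
    obtain ⟨⟨⟨a1, a2⟩, a3⟩, ⟨b1, b2⟩, b3⟩ := hℓ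
    rw [e, a3, b3, map_mul, mul_div_mul_comm, cl_mul H
      (div_ne_zero ((map_ne_zero σ).2 a1) b1) (div_ne_zero ((map_ne_zero σ).2 a2) b2)]
  · have h1 := (A_ind hle hF' h).and (A_ind hle hF' (conj_character h σ))
    refine germ_eq (h1.mono fun ℓ hℓ => ?_)
    rw [conj_induced F F' hF', hℓ.1, hℓ.2]

theorem defect_zero {F : Sub K} (hF : FinExt F) {χ : Fn F} (h : Char χ) (σ : ℂ ≃+* ℂ) :
    defect (CommGroup.torsion ℂˣ) σ F χ = 0 ↔ StarkRoots χ σ := by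
  have h1 := (A_ne hF h).and (A_ne hF (conj_character h σ))
  have key : ∀ ℓ : Lvl K, ℓ.A χ ≠ 0 → ℓ.A (conj σ χ) ≠ 0 →
      (cl (CommGroup.torsion ℂˣ) (σ (ℓ.A χ) / ℓ.A (conj σ χ)) = 0 ↔
        ∃ m : ℕ, 0 < m ∧ σ (ℓ.A χ) ^ m = ℓ.A (conj σ χ) ^ m) := by
    intro ℓ a b
    rw [cl_zero _ (div_ne_zero ((map_ne_zero σ).2 a) b)]
    change IsOfFinOrder _ ↔ _
    rw [isOfFinOrder_iff_pow_eq_one]
    refine exists_congr fun m => and_congr_right fun _ => ?_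
    rw [Units.ext_iff, Units.val_pow_eq_pow_val, Units.val_mk0, div_pow, Units.val_one,
      div_eq_one_iff_eq (pow_ne_zero m b)]
  unfold StarkRoots
  refine (germ_zero (u := fun ℓ : Lvl K => cl (CommGroup.torsion ℂˣ)
    (σ (ℓ.A χ) / ℓ.A (conj σ χ)))).trans ?_
  exact ⟨fun h2 => (h1.and h2).mono fun ℓ hℓ => (key ℓ hℓ.1.1 hℓ.1.2).1 hℓ.2,
    fun h2 => (h1.and h2).mono fun ℓ hℓ => (key ℓ hℓ.1.1 hℓ.1.2).2 hℓ.2⟩

theorem number_zero {F : Sub K} (hF : FinExt F) {χ : Fn F} (h : Char χ) :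
    number algUnits F χ = 0 ↔ AlgNumber χ := by
  have h1 := A_ne hF h
  unfold AlgNumber
  refine (germ_zero (u := fun ℓ : Lvl K => cl algUnits (ℓ.A χ))).trans ?_
  exact ⟨fun h2 => (h1.and h2).mono fun ℓ hℓ => (cl_zero _ hℓ.1).1 hℓ.2,
    fun h2 => (h1.and h2).mono fun ℓ hℓ => (cl_zero _ hℓ.1).2 hℓ.2⟩

theorem zero_character (F : Sub K) : Char (fun _ => 0 : Fn F) :=
  ⟨0, 1, ⟨base K, fin_base, fun _ _ => rfl⟩, fun g => by simp⟩

variable {B : Type} [AddCommGroup B]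

theorem zero_of_add {D : ∀ F : Sub K, Fn F → B} (hD : AddInd D) (F : Sub K) (hF : FinExt F) :
    D F (fun _ => 0) = 0 := by
  have h1 := hD.add F hF _ _ (zero_character F) (zero_character F)
  have h2 : plus (fun _ => 0 : Fn F) (fun _ => 0) = fun _ => (0 : ℂ) := by
    funext g
    exact add_zero _
  rw [h2] at h1
  exact left_eq_add.1 h1

theorem cls_char {F : Sub K} {ψ : Lin F} {M : ℕ} {T : Set ℕ} (h : ψ.cls M T) : Char ψ.fn := by
  have h1 : Smt (F := F) ψ := by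
    rcases h with h | h
    · exact h.2.2.1
    · have h2 := (fn_one_iff ψ).1 h
      refine ⟨base K, fin_base, fun g _ => ?_⟩
      rw [h2]
      rfl
  exact lin_char ψ h1

theorem reduction {T : Set ℕ} {M : ℕ} (hM : 0 < M) (htfd : TorsionFreeDivisible B)
    {D : ∀ F : Sub K, Fn F → B} (hD : AddInd D)
    (hS : ∀ F : Sub K, FinExt F → ∀ ψ : Lin F, ψ.cls M T → D F ψ.fn = 0) :
    (∀ F : Sub K, FinExt F → ∀ χ : Fn F, Char χ → InV T χ → D F χ = 0) ∧
      HasLocalConstants T D := by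
  obtain ⟨h3, h4⟩ := (constants (K := K) B htfd T).1 D M hD hM hS
  refine ⟨fun F hF χ hχ hc => ?_, h4⟩
  have h5 : Loc T (minus χ fun _ => 0) := by
    have h6 : (minus χ fun _ => 0) = χ := funext fun g => sub_zero _
    rw [h6]
    exact (inV_iff hF (char_virt hF hχ)).1 hc
  rw [h3 F hF χ _ hχ (zero_character F) h5]
  exact zero_of_add hD F hF

theorem stark : Stark K := by
  intro σ M T hM hS
  obtain ⟨h1, h2⟩ := reduction (K := K) (T := T) hM (germ_tfd (large K) (quot_tfd _ tor_pow))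
    (defect_addInd (CommGroup.torsion ℂˣ) σ)
    (fun F hF ψ hψ => (defect_zero hF (cls_char hψ) σ).2 (hS F hF ψ hψ))
  exact ⟨fun F hF χ hχ hc => (defect_zero hF hχ σ).1 (h1 F hF χ hχ hc), h2⟩

theorem algebraicity : Algebraicity K := by
  intro M T hM hS
  obtain ⟨h1, h2⟩ := reduction (K := K) (T := T) hM (germ_tfd (large K) (quot_tfd _ alg_pow))
    (number_addInd algUnits)
    (fun F hF ψ hψ => (number_zero hF (cls_char hψ)).2 (hS F hF ψ hψ))
  exact ⟨fun F hF χ hχ hc => (number_zero hF hχ).1 (h1 F hF χ hχ hc), h2⟩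

end

end Pool.Agent.Q20.RS.RL
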