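import Pool.Agent.Q20.RL.Lfp
import Pool.Agent.Q20.RS.Cgp

/-!
# Product formulas for the characters in `V`
-/

set_option autoImplicit false
set_option linter.unusedSectionVars false

namespace Pool.Agent.Q20.RS.RL

open NumberField IsDedekindDomain
open Pool.Agent.Q246.BI (Smooth IsCharacter induced)
open Pool.Agent.Q20.LG (RChar indF)
open Pool.Agent.Q20.TR (bt)
open scoped Classical

section
variable {K : Type} [Field K] [NumberField K]

theorem fin_of_le {F F' : Sub K} (hle : F ≤ F') (hF' : FinExt F') : FinExt F := by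
  have hfd' : FiniteDimensional K F' := hF'
  exact FiniteDimensional.of_injective (IntermediateField.inclusion hle).toLinearMap
    (IntermediateField.inclusion hle).injective

/-- induction of combinations of induced characters -/
theorem ind_closure {M : ℕ} {T : Set ℕ} {F : Sub K} (hF : FinExt F) (f : GalF F → ℂ)
    (hf : f ∈ AddSubgroup.closure {h : GalF F → ℂ | ∃ (F' : Sub K) (ψ : Lin F'), F ≤ F' ∧
      FinExt F' ∧ ψ.cls M T ∧ h = ind F F' ψ.fn}) :
    ∃ h : f ∈ RChar F.fixingSubgroup, ((indF (bt K) F hF ⟨f, h⟩ :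
      RChar (bt K).fixingSubgroup) : (bt K).fixingSubgroup → ℂ) ∈
      AddSubgroup.closure {f | ∃ (F : Sub K) (ψ : Lin F), FinExt F ∧ ψ.cls M T ∧
        f = induced (bt K) F ψ.fn} := by
  induction hf using AddSubgroup.closure_induction with
  | mem f hf =>
    obtain ⟨F', ψ, hle, hF', hψ, rfl⟩ := hf
    refine ⟨char_virt hF (ind_char' hF hF' (cls_char hψ)), AddSubgroup.subset_closure
      ⟨F', ψ, hF', hψ, ?_⟩⟩
    exact Pool.Agent.Q20.LG.induced_trans (bt K) F F' bot_le hle hF hF'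
      (char_conj_inv (cls_char hψ))
  | zero =>
    refine ⟨zero_mem _, ?_⟩
    have h1 : (⟨0, zero_mem _⟩ : RChar F.fixingSubgroup) = 0 := rfl
    rw [h1, map_zero]
    exact zero_mem _
  | add x y _ _ hx hy =>
    obtain ⟨h1, h2⟩ := hx
    obtain ⟨h3, h4⟩ := hy
    refine ⟨add_mem h1 h3, ?_⟩
    have h5 : (⟨x + y, add_mem h1 h3⟩ : RChar F.fixingSubgroup) = ⟨x, h1⟩ + ⟨y, h3⟩ := rfl
    rw [h5, map_add]
    exact add_mem h2 h4
  | neg x _ hx =>
    obtain ⟨h1, h2⟩ := hx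
    refine ⟨neg_mem h1, ?_⟩
    have h5 : (⟨-x, neg_mem h1⟩ : RChar F.fixingSubgroup) = -⟨x, h1⟩ := rfl
    rw [h5, map_neg]
    exact neg_mem h2

theorem well_defined : WellDefined K := by
  intro F hF χ hχ
  obtain ⟨N₀, h0, h1⟩ := Pool.Agent.Q20.RS.well_defined (K := K) F hF χ hχ
  refine ⟨N₀, h0, fun ℓ hℓ => ?_⟩
  obtain ⟨⟨n, ρ, hρ⟩, h2⟩ := h1 ℓ hℓ
  refine ⟨⟨_, n, ρ, hρ, rfl⟩, ?_⟩
  rintro z ⟨n', ρ', hρ', rfl⟩
  obtain ⟨h3, h4, -⟩ := h2 (Fin n' → ℂ) ρ' hρ'
  exact ⟨h3, h3 ▸ h4⟩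

/-- the term of a factor -/
noncomputable def Factor.term (t : Factor K) : Term K := ⟨t.F, t.ψ, t.e⟩

theorem products : Products K := by
  intro M T F χ hM hF hχ hV
  have h1 := ((principle (K := K) M T F χ hM hF (char_virt hF hχ)).out 0 1).1 hV
  obtain ⟨m, hm, h2⟩ := h1
  obtain ⟨h3, h4⟩ := ind_closure hF _ h2
  obtain ⟨l, hl, e⟩ := exists_factors (Q := fun F ψ => ψ.cls M T) h4
  have h5 : total l = m • induced (bt K) F χ := by
    have h6 : (⟨_, h3⟩ : RChar F.fixingSubgroup) = m • ⟨χ, char_virt hF hχ⟩ := rfl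
    rw [e, h6, map_nsmul]
    rfl
  have h7 : (((l.map Factor.term).map fun t =>
      t.e • induced (bt K) t.F t.fn).sum : (bt K).fixingSubgroup → ℂ) =
      m • induced (bt K) F χ := by
    rw [← h5]
    unfold total
    rw [List.map_map]
    rfl
  obtain ⟨N₀, hN₀, h8⟩ := prod_of_mem hF hχ m
    (l := l.map Factor.term) (fun t ht => by
      obtain ⟨t', ht', rfl⟩ := List.mem_map.1 ht
      exact ⟨t'.fin, (cls_unr (hl t' ht')).1⟩) h7
  refine ⟨m, l, hm, hl, N₀, hN₀, fun ℓ hℓ => ?_⟩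
  obtain ⟨h9, h10⟩ := h8 ℓ.old hℓ
  refine ⟨fun s hs => ?_, ?_⟩
  · have h11 := h9 s hs
    rw [List.map_map] at h11
    exact h11
  · rw [List.map_map] at h10
    exact h10

end

end Pool.Agent.Q20.RS.RL
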