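import Pool.Agent.Q20.RS.Lfn
import Pool.Agent.Q14.AR.Cheb

/-!
# Artin L-functions over `ℚ` determine the class functions
-/

set_option autoImplicit false
set_option linter.unusedSectionVars false
set_option linter.deprecated false

namespace Pool.Agent.Q20.RS.RL

open NumberField IsDedekindDomain Filter Topology Pool.Agent.W353.NF
  Pool.Agent.Q5.BR Pool.Agent.H541R3.ART Pool.Agent.Q92.AR

theorem asIdeal_rat (v : HeightOneSpectrum (𝓞 ℚ)) :
    ∃ p : ℕ, p.Prime ∧ v.asIdeal = Ideal.span {(p : 𝓞 ℚ)} := by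
  let p := Rat.HeightOneSpectrum.natGenerator v
  refine ⟨p, Rat.HeightOneSpectrum.prime_natGenerator v, ?_⟩
  have h := Rat.HeightOneSpectrum.span_natGenerator v
  have e : v.asIdeal = (v.asIdeal.map (Rat.IsIntegralClosure.intEquiv (𝓞 ℚ))).comap
      (Rat.IsIntegralClosure.intEquiv (𝓞 ℚ)) :=
    (v.asIdeal.comap_map_of_bijective _ (Rat.IsIntegralClosure.intEquiv (𝓞 ℚ)).bijective).symm
  rw [e, ← h, ← Ideal.map_symm, Ideal.map_span, Set.image_singleton]
  congr 2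
  exact map_natCast (Rat.IsIntegralClosure.intEquiv (𝓞 ℚ)).symm p

theorem nm_rat {v : HeightOneSpectrum (𝓞 ℚ)} {p : ℕ} (h : v.asIdeal = Ideal.span {(p : 𝓞 ℚ)}) :
    Ideal.absNorm v.asIdeal = p := by
  rw [h, Ideal.absNorm_span_singleton]
  have h1 : (p : 𝓞 ℚ) = algebraMap ℤ (𝓞 ℚ) (p : ℤ) := by simp
  rw [h1, Algebra.norm_algebraMap]
  have h2 : Module.finrank ℤ (𝓞 ℚ) = 1 := by
    rw [RingOfIntegers.rank]
    exact Module.finrank_self ℚ
  rw [h2, pow_one, Int.natAbs_natCast]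

theorem nm_prime (v : HeightOneSpectrum (𝓞 ℚ)) : (Ideal.absNorm v.asIdeal).Prime := by
  obtain ⟨p, hp, h⟩ := asIdeal_rat v
  rw [nm_rat h]
  exact hp

theorem nm_injective {v w : HeightOneSpectrum (𝓞 ℚ)}
    (h : Ideal.absNorm v.asIdeal = Ideal.absNorm w.asIdeal) : v = w := by
  obtain ⟨p, hp, h1⟩ := asIdeal_rat v
  obtain ⟨q, hq, h2⟩ := asIdeal_rat w
  rw [nm_rat h1, nm_rat h2] at h
  apply HeightOneSpectrum.ext
  rw [h1, h2, h]

/-- the prime powers -/
noncomputable def pw (x : HeightOneSpectrum (𝓞 ℚ) × ℕ) : ℕ := Ideal.absNorm x.1.asIdeal ^ (x.2 + 1)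

theorem pw_injective : Function.Injective pw := by
  rintro ⟨v, n⟩ ⟨w, m⟩ h
  have h' : Ideal.absNorm v.asIdeal ^ (n + 1) = Ideal.absNorm w.asIdeal ^ (m + 1) := h
  have hv := nm_prime v
  have hw := nm_prime w
  have h1 : Ideal.absNorm v.asIdeal ∣ Ideal.absNorm w.asIdeal ^ (m + 1) := by
    rw [← h']
    exact dvd_pow_self _ n.succ_ne_zero
  have h2 := (Nat.prime_dvd_prime_iff_eq hv hw).1 (hv.dvd_of_dvd_pow h1)
  have h3 := nm_injective h2
  subst h3
  have h4 := Nat.pow_right_injective hv.two_le h'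
  simp only [Nat.add_right_cancel_iff] at h4
  rw [h4]

theorem two_le_pw (x : HeightOneSpectrum (𝓞 ℚ) × ℕ) : 2 ≤ pw x :=
  (nm_prime x.1).two_le.trans (Nat.le_self_pow x.2.succ_ne_zero _)

section
variable {M : Type} [Field M] [NumberField M] [Algebra ℚ M]

open scoped Classical in
/-- the coefficients -/
noncomputable def cf (T : Finset (HeightOneSpectrum (𝓞 M))) (χ : (M ≃ₐ[ℚ] M) → ℂ)
    (x : HeightOneSpectrum (𝓞 ℚ) × ℕ) : ℂ :=
  if InS T x.1 then 0 else χ (frob M x.1 ^ (x.2 + 1)) / ((x.2 + 1 : ℕ) : ℂ)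

theorem lTerm_cf (T : Finset (HeightOneSpectrum (𝓞 M))) (χ : (M ≃ₐ[ℚ] M) → ℂ) (s : ℂ)
    (x : HeightOneSpectrum (𝓞 ℚ) × ℕ) : lTerm T χ s x = cf T χ x / (pw x : ℂ) ^ s := by
  obtain ⟨v, n⟩ := x
  by_cases h : InS T v
  · rw [lTerm_of_mem h]
    unfold cf
    rw [if_pos h, zero_div]
  · rw [lTerm_of_not h]
    unfold cf pw
    rw [if_neg h, div_div]
    congr 2
    push_cast
    rw [← Complex.natCast_cpow_natCast_mul]
    push_cast
    rfl

/-- the Dirichlet series -/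
noncomputable def ds (T : Finset (HeightOneSpectrum (𝓞 M))) (χ : (M ≃ₐ[ℚ] M) → ℂ) : ℕ → ℂ :=
  Function.extend pw (cf T χ) 0

theorem term_pw (T : Finset (HeightOneSpectrum (𝓞 M))) (χ : (M ≃ₐ[ℚ] M) → ℂ) (s : ℂ)
    (x : HeightOneSpectrum (𝓞 ℚ) × ℕ) : LSeries.term (ds T χ) s (pw x) = lTerm T χ s x := by
  have h0 : pw x ≠ 0 := by
    have := two_le_pw x
    omega
  rw [LSeries.term_of_ne_zero h0, lTerm_cf]
  congr 1
  exact pw_injective.extend_apply _ _ _

theorem term_out (T : Finset (HeightOneSpectrum (𝓞 M))) (χ : (M ≃ₐ[ℚ] M) → ℂ) (s : ℂ)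
    (m : ℕ) (hm : m ∉ Set.range pw) : LSeries.term (ds T χ) s m = 0 := by
  rcases eq_or_ne m 0 with rfl | h0
  · exact LSeries.term_zero _ _
  · rw [LSeries.term_of_ne_zero h0]
    have h1 : ds T χ m = 0 := Function.extend_apply' _ _ _ hm
    rw [h1, zero_div]

theorem summable_ds (T : Finset (HeightOneSpectrum (𝓞 M))) (χ : (M ≃ₐ[ℚ] M) → ℂ) {s : ℂ}
    (hs : 1 < s.re) : LSeriesSummable (ds T χ) s := by
  have h1 : Summable (LSeries.term (ds T χ) s ∘ pw) :=
    (lTerm_summable T χ hs).congr fun x => (term_pw T χ s x).symm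
  exact (pw_injective.summable_iff (term_out T χ s)).1 h1

theorem tsum_ds (T : Finset (HeightOneSpectrum (𝓞 M))) (χ : (M ≃ₐ[ℚ] M) → ℂ) (s : ℂ) :
    ∑' x, lTerm T χ s x = LSeries (ds T χ) s := by
  have h1 := pw_injective.tsum_eq (f := LSeries.term (ds T χ) s) (by
    intro m hm
    by_contra hcon
    exact hm (term_out T χ s m hcon))
  unfold LSeries
  rw [← h1]
  exact tsum_congr fun x => (term_pw T χ s x).symm

/-- **Artin L-functions over `ℚ` determine the class functions.** -/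
theorem artin_indep [IsGalois ℚ M] (T : Finset (HeightOneSpectrum (𝓞 M)))
    {f : (M ≃ₐ[ℚ] M) → ℂ} (hf : ∀ x y, f (x⁻¹ * y * x) = f y) {C : ℝ}
    (h : ∀ s : ℝ, C < s → artinLS T f (s : ℂ) = 1) : f = 0 := by
  have hlt : LSeries.abscissaOfAbsConv (ds T f) < ⊤ := by
    have h1 : LSeriesSummable (ds T f) (2 : ℂ) := summable_ds T f (by norm_num)
    exact h1.abscissaOfAbsConv_le.trans_lt (EReal.coe_lt_top _)
  have hlim := LSeries.tendsto_atTop hlt
  have h1 : ds T f 1 = 0 := by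
    refine Function.extend_apply' _ _ _ ?_
    rintro ⟨x, hx⟩
    have := two_le_pw x
    omega
  rw [h1] at hlim
  have hev : (fun x : ℝ => LSeries (ds T f) x) =ᶠ[atTop] 0 := by
    have h2 := Metric.tendsto_nhds.1 hlim 1 one_pos
    filter_upwards [h2, eventually_gt_atTop C] with x hx hxC
    have h3 := h x hxC
    unfold artinLS at h3
    rw [tsum_ds, Complex.exp_eq_one_iff] at h3
    obtain ⟨n, hn⟩ := h3
    change LSeries (ds T f) x = 0
    rcases eq_or_ne n 0 with rfl | hn0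
    · rw [hn, Int.cast_zero, zero_mul]
    · exfalso
      rw [dist_zero_right, hn, norm_mul, norm_mul, norm_mul, Complex.norm_I, Complex.norm_ofNat,
        Complex.norm_real, Real.norm_of_nonneg Real.pi_pos.le, Complex.norm_intCast] at hx
      have h4 : (1 : ℝ) ≤ |(n : ℝ)| := by
        have := Int.one_le_abs hn0
        exact_mod_cast this
      nlinarith [Real.pi_gt_three]
  have h2 := (LSeries_eventually_eq_zero_iff'.1 hev).resolve_right hlt.ne
  funext γ
  have hfin : {v : HeightOneSpectrum (𝓞 ℚ) | InS T v}.Finite := by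
    refine (T.finite_toSet.image fun w => w.under (𝓞 ℚ)).subset ?_
    rintro v ⟨w, hw, rfl⟩
    exact ⟨w, hw, rfl⟩
  obtain ⟨v, hv, hvu, hvγ⟩ := Pool.Agent.Q14.AR.cheb ℚ M γ _ hfin
  obtain ⟨z, hz⟩ := isFrobenius_conj hvu hvγ (frob_spec v)
  have h3 := h2 (pw (v, 0)) (by have := two_le_pw (v, 0); omega)
  have h4 : ds T f (pw (v, 0)) = cf T f (v, 0) := pw_injective.extend_apply _ _ _
  rw [h4] at h3
  have h5 : cf T f (v, 0) = f (frob M v ^ (0 + 1)) / ((0 + 1 : ℕ) : ℂ) := if_neg hv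
  rw [h5, zero_add, pow_one, Nat.cast_one, div_one, hz, hf] at h3
  exact h3

end

end Pool.Agent.Q20.RS.RL
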