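import Pool.Agent.Q20.RL.Lfd
import Pool.Agent.Q20.RL.Rea
import Pool.Agent.Q20.RL.Ser

/-!
# Products of Artin L-functions: proofs
-/

set_option autoImplicit false
set_option linter.unusedSectionVars false

namespace Pool.Agent.Q20.RS.RL

open NumberField IsDedekindDomain
open Pool.Agent.Q246.BI (Smooth IsCharacter induced)
open Pool.Agent.Q20.TR (bt)
open Pool.Agent.Q92.AR
open scoped Classical

section
variable {K : Type} [Field K] [NumberField K]

/-- the function on `Gal(N/F)` with inflation `χ` -/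
noncomputable def fnN (N : Sub K) {F : Sub K} (χ : F.fixingSubgroup → ℂ) (y : N ≃ₐ[sb N F] N) : ℂ :=
  if h : ∃ g : F.fixingSubgroup, ∀ x : N,
    ((y x : N) : AlgebraicClosure K) = (g : Gal(AlgebraicClosure K/K)) x then χ h.choose else 0

variable {N F : Sub K} [FiniteDimensional K N] [Normal K N]

theorem fnN_eq (hle : F ≤ N) {U : Type} [AddCommGroup U] [Module ℂ U]
    {ρ : Representation ℂ (N ≃ₐ[sb N F] N) U} {χ : F.fixingSubgroup → ℂ} (h : HasChar ρ χ) :
    fnN N χ = ρ.character := by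
  funext y
  have hex : ∃ g : F.fixingSubgroup, ∀ x : N,
      ((y x : N) : AlgebraicClosure K) = (g : Gal(AlgebraicClosure K/K)) x := by
    obtain ⟨g, rfl⟩ := rF_surjective (mt_sb hle) y
    exact ⟨g, rF_apply _ g⟩
  unfold fnN
  rw [dif_pos hex]
  exact (h y _ hex.choose_spec).symm

theorem exists_f (hle : F ≤ N) {T : Finset (HeightOneSpectrum (𝓞 N))} (hT : Stable K T)
    (hR : ContainsRamified K T) {U : Type} [AddCommGroup U] [Module ℂ U] [FiniteDimensional ℂ U]
    {ρ : Representation ℂ (N ≃ₐ[sb N F] N) U} {χ : F.fixingSubgroup → ℂ} (h : HasChar ρ χ) :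
    ∃ f : (N ≃ₐ[K] N) → ℂ, (∀ g, induced (bt K) F χ g = f (rN N g)) ∧
      ∀ s : ℂ, 1 < s.re → artinLS T (fnN N χ) s = artinLS T f s := by
  refine ⟨_, fun g => congrFun (ind_char hle h) g, fun s hs => ?_⟩
  rw [fnN_eq hle h, artinLS_ind hT hR _ (char_conj' ρ) hs]

end

section
variable {K : Type} [Field K] [NumberField K]

/-- the field of the layer -/
instance Lay.fin' (P : Lay K) : FiniteDimensional K P.N := P.fin

instance Lay.nor' (P : Lay K) : Normal K P.N := P.nor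

theorem Lay.gal (P : Lay K) : IsGalois K P.N := IsGalois.mk

/-- the primes -/
noncomputable def Lay.pr (P : Lay K) : Finset (HeightOneSpectrum (𝓞 P.N)) := P.T

/-- **The L-functions at a layer.** -/
theorem Lay.exists_f (P : Lay K) {F : Sub K} {χ : Fn F} (h : P.Has χ) :
    ∃ f : (P.N ≃ₐ[K] P.N) → ℂ, (∀ g, induced (bt K) F χ g = f (rN P.N g)) ∧
      ∀ s : ℂ, 1 < s.re → P.L χ s = artinLS P.pr f s := by
  obtain ⟨hle, n, ρ, hρ⟩ := h
  exact RL.exists_f (T := P.pr) hle P.stable P.ram hρ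

/-- the sum of the induced characters -/
noncomputable def total (l : List (Factor K)) : (bt K).fixingSubgroup → ℂ :=
  (l.map fun t => t.e • induced (bt K) t.F t.ψ.fn).sum

/-- **Product formulas at a layer.** -/
theorem Lay.prod (P : Lay K) (l : List (Factor K)) (hl : ∀ t ∈ l, P.Has t.ψ.fn) :
    ∃ f : (P.N ≃ₐ[K] P.N) → ℂ, (∀ g, total l g = f (rN P.N g)) ∧ ∀ s : ℂ, 1 < s.re →
      artinLS P.pr f s = (l.map fun t => P.L t.ψ.fn s ^ t.e).prod := by
  induction l with
  | nil =>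
    exact ⟨0, fun _ => rfl, fun s hs => artinLS_zero P.pr hs⟩
  | cons t l ih =>
    obtain ⟨f₁, e1, e2⟩ := P.exists_f (hl t List.mem_cons_self)
    obtain ⟨f₂, e3, e4⟩ := ih (fun t' ht' => hl t' (List.mem_cons_of_mem _ ht'))
    refine ⟨t.e • f₁ + f₂, fun g => ?_, fun s hs => ?_⟩
    · have h3 : total (t :: l) g = t.e • induced (bt K) t.F t.ψ.fn g + total l g := by
        unfold total
        rw [List.map_cons, List.sum_cons, Pi.add_apply, Pi.smul_apply]
      rw [h3, e1, e3, Pi.add_apply, Pi.smul_apply]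
    · rw [artinLS_add _ _ _ hs, artinLS_zsmul _ _ _ hs, e4 s hs,
        List.map_cons, List.prod_cons, e2 s hs]

/-- elements of the closure as lists -/
theorem exists_factors {Q : ∀ F : Sub K, Lin F → Prop} {f : (bt K).fixingSubgroup → ℂ}
    (hf : f ∈ AddSubgroup.closure {f | ∃ (F : Sub K) (ψ : Lin F), FinExt F ∧ Q F ψ ∧
      f = induced (bt K) F ψ.fn}) :
    ∃ l : List (Factor K), (∀ t ∈ l, Q t.F t.ψ) ∧ total l = f := by
  induction hf using AddSubgroup.closure_induction with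
  | mem f hf =>
    obtain ⟨F, ψ, hF, h, rfl⟩ := hf
    refine ⟨[⟨F, hF, ψ, 1⟩], fun t ht => ?_, ?_⟩
    · rw [List.mem_singleton] at ht
      subst ht
      exact h
    · unfold total
      rw [List.map_singleton, List.sum_singleton, one_smul]
  | zero => exact ⟨[], fun t ht => absurd ht List.not_mem_nil, rfl⟩
  | add x y _ _ hx hy =>
    obtain ⟨a, ha, ea⟩ := hx
    obtain ⟨b, hb, eb⟩ := hy
    refine ⟨a ++ b, fun t ht => ?_, ?_⟩
    · rcases List.mem_append.1 ht with ht | ht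
      · exact ha t ht
      · exact hb t ht
    · unfold total
      rw [List.map_append, List.sum_append]
      exact congrArg₂ (· + ·) ea eb
  | neg x _ hx =>
    obtain ⟨a, ha, ea⟩ := hx
    refine ⟨a.map fun t => ⟨t.F, t.fin, t.ψ, -t.e⟩, fun t ht => ?_, ?_⟩
    · obtain ⟨t', ht', rfl⟩ := List.mem_map.1 ht
      exact ha t' ht'
    · rw [← ea]
      unfold total
      rw [List.map_map]
      clear ea ha
      induction a with
      | nil => exact neg_zero.symm
      | cons t a ih =>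
        rw [List.map_cons, List.sum_cons, ih, List.map_cons, List.sum_cons, neg_add]
        congr 1
        exact neg_smul _ _

/-- characters are characters of representations at all large layers -/
theorem ofLevel_large {F : Sub K} (hF : FinExt F) {χ : Fn F} (hχ : Char χ) :
    ∃ N₀ : Sub K, FinExt N₀ ∧ ∀ P : Lay K, N₀ ≤ P.N → P.Has χ := by
  obtain ⟨n, τ, ⟨E, hE, hs⟩, hτ⟩ := hχ
  have hF' : FiniteDimensional K F := hF
  have hE' : FiniteDimensional K E := hE
  refine ⟨F ⊔ E, IntermediateField.finiteDimensional_sup F E, fun P hP => ?_⟩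
  obtain ⟨ρ, hρ⟩ := exists_rep (N := P.N) (le_sup_left.trans hP) τ fun g hg =>
    hs g (IntermediateField.fixingSubgroup_antitone (le_sup_right.trans hP) hg)
  exact ⟨le_sup_left.trans hP, n, ρ, fun y g hy => (hρ y g hy).trans (hτ g).symm⟩

theorem ofLevel_list (l : List (Factor K)) (hl : ∀ t ∈ l, Char t.ψ.fn) :
    ∃ N₀ : Sub K, FinExt N₀ ∧ ∀ P : Lay K, N₀ ≤ P.N → ∀ t ∈ l, P.Has t.ψ.fn := by
  induction l with
  | nil => exact ⟨base K, fin_base, fun _ _ t ht => absurd ht List.not_mem_nil⟩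
  | cons t l ih =>
    obtain ⟨N₁, h1, h2⟩ := ih fun t' ht' => hl t' (List.mem_cons_of_mem _ ht')
    obtain ⟨N₂, h3, h4⟩ := ofLevel_large t.fin (hl t List.mem_cons_self)
    have h1' : FiniteDimensional K N₁ := h1
    have h3' : FiniteDimensional K N₂ := h3
    refine ⟨N₁ ⊔ N₂, IntermediateField.finiteDimensional_sup _ _, fun P hP t' ht' => ?_⟩
    rcases List.mem_cons.1 ht' with rfl | ht'
    · exact h4 P (le_sup_right.trans hP)
    · exact h2 P (le_sup_left.trans hP) t' ht'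

theorem under_pra {M : Type} [Field M] [NumberField M] [Algebra K M] (g : M ≃ₐ[K] M)
    (w : HeightOneSpectrum (𝓞 M)) : (pra g w).under (𝓞 K) = w.under (𝓞 K) := by
  apply HeightOneSpectrum.ext
  ext x
  have h1 : algebraMap (𝓞 K) (𝓞 M) x ∈ (pra g w).asIdeal ↔
      (RingOfIntegers.mapRingEquiv g.toRingEquiv).symm (algebraMap (𝓞 K) (𝓞 M) x) ∈ w.asIdeal :=
    Iff.rfl
  have h2 : (RingOfIntegers.mapRingEquiv g.toRingEquiv).symm (algebraMap (𝓞 K) (𝓞 M) x) =
      algebraMap (𝓞 K) (𝓞 M) x := by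
    rw [RingEquiv.symm_apply_eq]
    apply RingOfIntegers.ext
    exact (g.commutes (x : K)).symm
  rw [h2] at h1
  exact h1

/-- layers exist -/
theorem exists_layer {N₀ : Sub K} (h : FinExt N₀) : ∃ P : Lay K, N₀ ≤ P.N := by
  have hfd : FiniteDimensional K N₀ := h
  let N : Sub K := IntermediateField.normalClosure K N₀ (AlgebraicClosure K)
  have hN : FiniteDimensional K N := normalClosure.is_finiteDimensional K N₀ (AlgebraicClosure K)
  have hn : Normal K N := normalClosure.normal K N₀ (AlgebraicClosure K)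
  have hN' : FiniteDimensional K (NFd N) := hN
  have hn' : Normal K (NFd N) := hn
  have hg : IsGalois K (NFd N) := {}
  have hfin : {w : HeightOneSpectrum (𝓞 (NFd N)) |
      ¬ Unramified (NFd N) (w.under (𝓞 K))}.Finite := by
    have h1 := Pool.Agent.Q14.AR.ramified_finite (K := K) (M := NFd N)
    refine Set.Finite.subset (h1.biUnion (t := fun v =>
      {w : HeightOneSpectrum (𝓞 (NFd N)) | w.under (𝓞 K) = v}) fun v _ => ?_) ?_
    · exact (Pool.Agent.Q5.BR.above (NFd N) v).finite_toSet.subset fun w hw =>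
        Finset.mem_coe.2 (Pool.Agent.Q5.BR.mem_above.2 hw)
    · intro w hw
      exact Set.mem_biUnion hw rfl
  refine ⟨{ N := N, T := hfin.toFinset, stable := ?_, ram := ?_ }, ?_⟩
  · intro g w hw
    rw [Set.Finite.mem_toFinset] at hw ⊢
    have h1 : (pra g w).under (𝓞 K) = w.under (𝓞 K) := under_pra g w
    change ¬ Unramified (NFd N) ((pra g w).under (𝓞 K))
    rw [h1]
    exact hw
  · intro v hv
    have h1 : ∃ w : HeightOneSpectrum (𝓞 (NFd N)), w.under (𝓞 K) = v := by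
      by_contra hcon
      exact hv fun w hw => absurd ⟨w, hw⟩ hcon
    obtain ⟨w, hw⟩ := h1
    refine ⟨w, hfin.mem_toFinset.2 ?_, hw⟩
    change ¬ Unramified (NFd N) (w.under (𝓞 K))
    rw [hw]
    exact hv
  · exact IntermediateField.le_normalClosure N₀

end

section
variable {K : Type} [Field K] [NumberField K]

theorem inv_class {N : Sub K} [FiniteDimensional K N] [Normal K N] {F : Sub K} (hF : FinExt F)
    {χ : Fn F} (hχ : Char χ) {f : (N ≃ₐ[K] N) → ℂ}
    (h : ∀ g, induced (bt K) F χ g = f (rN N g)) (x y : N ≃ₐ[K] N) :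
    f (x⁻¹ * y * x) = f y := by
  obtain ⟨a, rfl⟩ := rN_surjective (N := N) x
  obtain ⟨b, rfl⟩ := rN_surjective (N := N) y
  rw [← map_inv, ← map_mul, ← map_mul, ← h, ← h]
  exact char_conj_inv (F := bt K) (χ := ind (bt K) F χ) (ind_char' fin_base hF hχ) b a

theorem inv_total {N : Sub K} [FiniteDimensional K N] [Normal K N] (l : List (Factor K))
    (hl : ∀ t ∈ l, Char t.ψ.fn) (a b : (bt K).fixingSubgroup) :
    total l (b⁻¹ * a * b) = total l a := by
  induction l with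
  | nil => rfl
  | cons t l ih =>
    have h3 : ∀ g, total (t :: l) g = t.e • induced (bt K) t.F t.ψ.fn g + total l g := by
      intro g
      unfold total
      rw [List.map_cons, List.sum_cons, Pi.add_apply, Pi.smul_apply]
    rw [h3, h3, ih fun t' ht' => hl t' (List.mem_cons_of_mem _ ht')]
    congr 2
    exact char_conj_inv (F := bt K) (χ := ind (bt K) t.F t.ψ.fn)
      (ind_char' fin_base t.fin (hl t List.mem_cons_self)) a b

/-- the converse, for the base fields for which the Artin L-functions determine the class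
functions -/
theorem of_product (hK : ∀ (P : Lay K) (f : (P.N ≃ₐ[K] P.N) → ℂ),
      (∀ x y, f (x⁻¹ * y * x) = f y) → (∃ C : ℝ, ∀ s : ℝ, C < s → artinLS P.pr f (s : ℂ) = 1) →
        f = 0)
    {F : Sub K} (hF : FinExt F) {χ : Fn F} (hχ : Char χ) {m : ℕ} {l : List (Factor K)}
    (hl : ∀ t ∈ l, Char t.ψ.fn) (P : Lay K) (C : ℝ) (h1 : P.Has χ)
    (h2 : ∀ t ∈ l, P.Has t.ψ.fn) (h3 : ∀ s : ℝ, C < s → P.Product χ m l s) :
    m • induced (bt K) F χ = total l := by
  obtain ⟨f, e1, e2⟩ := P.exists_f h1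
  obtain ⟨f', e3, e4⟩ := P.prod l h2
  have hc : ∀ x y, (m • f + -f') (x⁻¹ * y * x) = (m • f + -f') y := by
    intro x y
    have h5 : f' (x⁻¹ * y * x) = f' y := by
      obtain ⟨a, rfl⟩ := rN_surjective (N := P.N) x
      obtain ⟨b, rfl⟩ := rN_surjective (N := P.N) y
      rw [← map_inv, ← map_mul, ← map_mul, ← e3, ← e3]
      exact inv_total (N := P.N) l hl b a
    simp only [Pi.add_apply, Pi.neg_apply, Pi.smul_apply]
    rw [inv_class hF hχ e1 x y, h5]
  have h4 : m • f + -f' = 0 := by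
    refine hK P _ hc ⟨max C 1, fun s hs => ?_⟩
    have hs1 : 1 < ((s : ℂ)).re := by
      rw [Complex.ofReal_re]
      exact (le_max_right _ _).trans_lt hs
    have h5 := h3 s ((le_max_left _ _).trans_lt hs)
    unfold Lay.Product at h5
    rw [artinLS_add _ _ _ hs1, artinLS_neg, artinLS_nsmul _ _ _ hs1, ← e2 _ hs1, e4 _ hs1, h5]
    refine mul_inv_cancel₀ ?_
    rw [← e4 _ hs1]
    exact Complex.exp_ne_zero _
  funext g
  have h5 := congrFun h4 (rN P.N g)
  rw [e3, Pi.smul_apply, e1]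
  rw [Pi.add_apply, Pi.neg_apply, Pi.smul_apply, Pi.zero_apply, ← sub_eq_add_neg, sub_eq_zero] at h5
  exact h5

/-- product formulas at all large layers -/
theorem product_large {F : Sub K} (hF : FinExt F) {χ : Fn F} (hχ : Char χ) {m : ℕ}
    {l : List (Factor K)} (hl : ∀ t ∈ l, Char t.ψ.fn) (h : total l = m • induced (bt K) F χ) :
    ∃ N₀ : Sub K, FinExt N₀ ∧ ∀ P : Lay K, N₀ ≤ P.N → P.Has χ ∧
      (∀ t ∈ l, P.Has t.ψ.fn) ∧ ∀ s : ℂ, 1 < s.re → P.Product χ m l s := by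
  obtain ⟨N₁, h1, h2⟩ := ofLevel_large hF hχ
  obtain ⟨N₂, h3, h4⟩ := ofLevel_list l hl
  have h1' : FiniteDimensional K N₁ := h1
  have h3' : FiniteDimensional K N₂ := h3
  refine ⟨N₁ ⊔ N₂, IntermediateField.finiteDimensional_sup _ _, fun P hP => ?_⟩
  have h5 := h2 P (le_sup_left.trans hP)
  have h6 := h4 P (le_sup_right.trans hP)
  refine ⟨h5, h6, fun s hs => ?_⟩
  obtain ⟨f, e1, e2⟩ := P.exists_f h5
  obtain ⟨f', e3, e4⟩ := P.prod l h6
  have h7 : f' = m • f := by
    funext y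
    obtain ⟨g, rfl⟩ := rN_surjective (N := P.N) y
    rw [← e3, h, Pi.smul_apply, Pi.smul_apply, e1]
  unfold Lay.Product
  rw [← e4 s hs, h7, artinLS_nsmul _ _ _ hs, e2 s hs]

theorem total_mem {Q : ∀ F : Sub K, Lin F → Prop} (l : List (Factor K))
    (hl : ∀ t ∈ l, Q t.F t.ψ) : total l ∈ AddSubgroup.closure {f | ∃ (F : Sub K) (ψ : Lin F),
      FinExt F ∧ Q F ψ ∧ f = induced (bt K) F ψ.fn} := by
  induction l with
  | nil => exact zero_mem _
  | cons t l ih =>
    have h3 : total (t :: l) = t.e • induced (bt K) t.F t.ψ.fn + total l := by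
      unfold total
      rw [List.map_cons, List.sum_cons]
    rw [h3]
    refine add_mem (AddSubgroup.zsmul_mem _ (AddSubgroup.subset_closure ?_) _)
      (ih fun t' ht' => hl t' (List.mem_cons_of_mem _ ht'))
    exact ⟨t.F, t.ψ, t.fin, hl t List.mem_cons_self, rfl⟩

theorem inVM_iff {M : ℕ} {T : Set ℕ} (f : (bt K).fixingSubgroup → ℂ) : InVM (F := base K) M T f ↔ ∃ m : ℕ, 0 < m ∧
    m • f ∈ AddSubgroup.closure {f | ∃ (F : Sub K) (ψ : Lin F),
      FinExt F ∧ ψ.cls M T ∧ f = induced (bt K) F ψ.fn} := by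
  have h : {h : GalF (base K) → ℂ | ∃ (F' : Sub K) (ψ : Lin F'), base K ≤ F' ∧ FinExt F' ∧
      ψ.cls M T ∧ h = ind (base K) F' ψ.fn} = {f : (bt K).fixingSubgroup → ℂ |
        ∃ (F : Sub K) (ψ : Lin F), FinExt F ∧ ψ.cls M T ∧ f = induced (bt K) F ψ.fn} := by
    ext h
    constructor
    · rintro ⟨F', ψ, -, h2, h3, h4⟩
      exact ⟨F', ψ, h2, h3, h4⟩
    · rintro ⟨F', ψ, h2, h3, h4⟩
      exact ⟨F', ψ, bot_le, h2, h3, h4⟩
  exact iff_of_eq (congrArg (fun A : Set ((bt K).fixingSubgroup → ℂ) =>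
    ∃ m : ℕ, 0 < m ∧ m • f ∈ AddSubgroup.closure A) h)

theorem inV_iff' {T : Set ℕ} (f : (bt K).fixingSubgroup → ℂ) : InV (F := base K) T f ↔ ∃ m : ℕ, 0 < m ∧
    m • f ∈ AddSubgroup.closure {f | ∃ (F : Sub K) (ψ : Lin F),
      FinExt F ∧ ψ.unr T ∧ f = induced (bt K) F ψ.fn} := by
  have h : {h : GalF (base K) → ℂ | ∃ (F' : Sub K) (ψ : Lin F'), base K ≤ F' ∧ FinExt F' ∧
      ψ.unr T ∧ h = ind (base K) F' ψ.fn} = {f : (bt K).fixingSubgroup → ℂ |
        ∃ (F : Sub K) (ψ : Lin F), FinExt F ∧ ψ.unr T ∧ f = induced (bt K) F ψ.fn} := by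
    ext h
    constructor
    · rintro ⟨F', ψ, -, h2, h3, h4⟩
      exact ⟨F', ψ, h2, h3, h4⟩
    · rintro ⟨F', ψ, h2, h3, h4⟩
      exact ⟨F', ψ, bot_le, h2, h3, h4⟩
  exact iff_of_eq (congrArg (fun A : Set ((bt K).fixingSubgroup → ℂ) =>
    ∃ m : ℕ, 0 < m ∧ m • f ∈ AddSubgroup.closure A) h)

theorem cls_unr {F : Sub K} {ψ : Lin F} {M : ℕ} {T : Set ℕ} (h : ψ.cls M T) : ψ.unr T := by
  rcases h with h | h
  · exact h.2.2
  · have h2 := (fn_one_iff ψ).1 h
    refine ⟨⟨base K, fin_base, fun g _ => ?_⟩, fun p _ _ w _ g _ => congrFun h g⟩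
    rw [h2]
    rfl

/-- the equivalences -/
theorem lfun (hK : ∀ (P : Lay K) (f : (P.N ≃ₐ[K] P.N) → ℂ),
      (∀ x y, f (x⁻¹ * y * x) = f y) → (∃ C : ℝ, ∀ s : ℝ, C < s → artinLS P.pr f (s : ℂ) = 1) →
        f = 0)
    (M : ℕ) (T : Set ℕ) (F : Sub K) (χ : Fn F) (hM : 0 < M) (hF : FinExt F) (hχ : Char χ) :
    List.TFAE [
    InV T (ind (base K) F χ),
    Loc T (ind (base K) F χ),
    ∃ (m : ℕ) (l : List (Factor K)), 0 < m ∧ (∀ t ∈ l, t.ψ.cls M T) ∧
      ∃ N₀ : Sub K, FinExt N₀ ∧ ∀ P : Lay K, N₀ ≤ P.N → P.Has χ ∧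
        (∀ t ∈ l, P.Has t.ψ.fn) ∧ ∀ s : ℂ, 1 < s.re → P.Product χ m l s,
    ∃ (m : ℕ) (l : List (Factor K)), 0 < m ∧ (∀ t ∈ l, t.ψ.unr T) ∧
      ∃ (P : Lay K) (C : ℝ), P.Has χ ∧ (∀ t ∈ l, P.Has t.ψ.fn) ∧
        ∀ s : ℝ, C < s → P.Product χ m l s] := by
  have hI : Char (ind (base K) F χ) := ind_char' fin_base hF hχ
  have hP := principle (K := K) M T (base K) _ hM fin_base (char_virt fin_base hI)
  tfae_have 1 ↔ 2 := hP.out 0 3
  tfae_have 1 → 3 := by
    intro h
    obtain ⟨m, hm, h1⟩ := (inVM_iff _).1 ((hP.out 0 1).1 h)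
    obtain ⟨l, hl, e⟩ := exists_factors (Q := fun F ψ => ψ.cls M T) h1
    exact ⟨m, l, hm, hl, product_large hF hχ (fun t ht => cls_char (hl t ht)) e⟩
  tfae_have 3 → 4 := by
    rintro ⟨m, l, hm, hl, N₀, hN₀, h⟩
    obtain ⟨P, hP⟩ := exists_layer hN₀
    obtain ⟨h1, h2, h3⟩ := h P hP
    exact ⟨m, l, hm, fun t ht => cls_unr (hl t ht), P, 1, h1, h2, fun s hs => h3 s
      (by rw [Complex.ofReal_re]; exact hs)⟩
  tfae_have 4 → 1 := by
    rintro ⟨m, l, hm, hl, P, C, h1, h2, h3⟩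
    have h4 := of_product hK hF hχ (fun t ht => lin_char _ (hl t ht).1) P C h1 h2 h3
    refine (inV_iff' _).2 ⟨m, hm, ?_⟩
    have h5 := total_mem (Q := fun F ψ => ψ.unr T) l hl
    rw [← h4] at h5
    exact h5
  tfae_finish

end

theorem lfunctions : LFunctions := by
  intro M T F χ hM hF hχ
  refine lfun (fun P f hf ⟨C, hC⟩ => ?_) M T F χ hM hF hχ
  have hg := P.gal
  exact @artin_indep _ _ _ _ hg P.pr f hf C hC

end Pool.Agent.Q20.RS.RL
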