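import Pool.Agent.Q20.RS.Lvd

/-!
# The local-global principle and local constants: definitions and statements
-/

set_option autoImplicit false
set_option linter.unusedSectionVars false
set_option warn.classDefReducibility false

namespace Pool.Agent.Q20.RS.RL

open NumberField IsDedekindDomain

open scoped Classical

section profinite
variable {Γ : Type} [Group Γ]

/-- the function induced from a function on a subgroup of finite index (Frobenius' formula) -/
noncomputable def Inu (H : Subgroup Γ) (φ : H → ℂ) (g : Γ) : ℂ :=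
  ∑ᶠ x : Γ ⧸ H, if h : x.out⁻¹ * g * x.out ∈ H then φ ⟨_, h⟩ else 0

variable [TopologicalSpace Γ]

/-- the characters of the complex representations with open kernel -/
def Chr (χ : Γ → ℂ) : Prop :=
  ∃ (n : ℕ) (τ : Γ →* GL (Fin n) ℂ) (U : Subgroup Γ), IsOpen (U : Set Γ) ∧ (∀ g ∈ U, τ g = 1) ∧
    ∀ g, χ g = (τ g : Matrix (Fin n) (Fin n) ℂ).trace

/-- virtual characters -/
def VChr (Γ : Type) [Group Γ] [TopologicalSpace Γ] : AddSubgroup (Γ → ℂ) :=
  AddSubgroup.closure {χ | Chr χ}

/-- `u` and `v` generate the same closed subgroup -/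
def SameCl (u v : Γ) : Prop :=
  closure (Subgroup.zpowers u : Set Γ) = closure (Subgroup.zpowers v : Set Γ)

/-- the functions induced from linear characters of open subgroups, trivial on `𝒯` -/
def UnrC (𝒯 : Set Γ) : Set (Γ → ℂ) :=
  {f | ∃ (H : Subgroup Γ) (ψ : H →* ℂˣ), IsOpen (H : Set Γ) ∧
    (∃ U : Subgroup Γ, IsOpen (U : Set Γ) ∧ ∀ h : H, (h : Γ) ∈ U → ψ h = 1) ∧
    (∀ t : H, (t : Γ) ∈ 𝒯 → ψ t = 1) ∧ f = Inu H (fun h => ((ψ h : ℂˣ) : ℂ))}

end profinite

section defs
variable {K : Type} [Field K]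

/-- the decomposition group of `w` in `Gal(K̄/F)` -/
def dcF (F : Sub K) (w : AlgebraicClosure K → ℝ) : Subgroup (GalF F) where
  carrier := {g | Dcm w (g : Gal(AlgebraicClosure K/K))}
  mul_mem' := fun {a b} ha hb x => (ha _).trans (hb x)
  one_mem' := fun _ => rfl
  inv_mem' := fun {a} ha x => by
    have h1 : (a : Gal(AlgebraicClosure K/K)) (((a⁻¹ : GalF F) : Gal(AlgebraicClosure K/K)) x) = x :=
      AlgEquiv.apply_symm_apply (a : Gal(AlgebraicClosure K/K)) x
    have h := ha (((a⁻¹ : GalF F) : Gal(AlgebraicClosure K/K)) x)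
    rw [h1] at h
    exact h.symm

/-- its inertia subgroup -/
def inF (F : Sub K) (w : AlgebraicClosure K → ℝ) : Set (dcF F w) :=
  {g | Inr w ((g : GalF F) : Gal(AlgebraicClosure K/K))}

/-- the elements of the decomposition group of `w` in `Gal(K̄/F)` which are in `Gal(K̄/F')` -/
noncomputable def dcFF (F F' : Sub K) (w : AlgebraicClosure K → ℝ) : Subgroup (dcF F w) :=
  (F'.fixingSubgroup.subgroupOf F.fixingSubgroup).subgroupOf (dcF F w)

/-- complex functions on the decomposition group of `w` in `Gal(K̄/F)` -/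
def LFn (F : Sub K) (w : AlgebraicClosure K → ℝ) : Type := dcF F w → ℂ

/-- the sum -/
def plus {F : Sub K} (f f' : Fn F) : Fn F := fun g => f g + f' g

/-- the difference -/
def minus {F : Sub K} (f f' : Fn F) : Fn F := fun g => f g - f' g

/-- the sum -/
def LFn.plus {F : Sub K} {w : AlgebraicClosure K → ℝ} (φ φ' : LFn F w) : LFn F w :=
  fun g => φ g + φ' g

/-- the difference -/
def LFn.minus {F : Sub K} {w : AlgebraicClosure K → ℝ} (φ φ' : LFn F w) : LFn F w :=
  fun g => φ g - φ' g

/-- the multiple -/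
def LFn.times {F : Sub K} {w : AlgebraicClosure K → ℝ} (m : ℕ) (φ : LFn F w) : LFn F w :=
  fun g => m • φ g

/-- virtual characters of `Gal(K̄/F)` -/
def Virt {F : Sub K} (f : Fn F) : Prop := f ∈ VChr (GalF F)

/-- virtual characters of the decomposition group of `w` in `Gal(K̄/F)` -/
def LVirt {F : Sub K} {w : AlgebraicClosure K → ℝ} (φ : LFn F w) : Prop := φ ∈ VChr (dcF F w)

/-- restriction to the decomposition group -/
def res {F : Sub K} (w : AlgebraicClosure K → ℝ) (f : Fn F) : LFn F w := fun g => f g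

/-- extension by zero to `Gal(K̄/K)` -/
noncomputable def LFn.zext {F : Sub K} {w : AlgebraicClosure K → ℝ} (φ : LFn F w)
    (g : Gal(AlgebraicClosure K/K)) : ℂ :=
  if e : ∃ h : dcF F w, h.1.1 = g then φ e.choose else 0

/-- induction from the decomposition group of `w` in `Gal(K̄/F')` to the decomposition group of `w`
in `Gal(K̄/F)`, `F ⊆ F'` -/
noncomputable def lind (F F' : Sub K) (w : AlgebraicClosure K → ℝ) (φ : LFn F' w) : LFn F w :=
  Inu (dcFF F F' w) fun h => φ.zext h.1.1.1

/-- the finite places of `K̄` -/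
def Place (w : AlgebraicClosure K → ℝ) : Prop := ∃ p : ℕ, p.Prime ∧ Plc p w

/-- places which do not lie above a prime of `T` -/
def Outside (T : Set ℕ) (w : AlgebraicClosure K → ℝ) : Prop :=
  ∃ p : ℕ, p.Prime ∧ p ∉ T ∧ Plc p w

/-- linear characters -/
def Lin (F : Sub K) : Type := GalF F →* ℂˣ

/-- linear characters as functions -/
noncomputable def Lin.fn {F : Sub K} (ψ : Lin F) : Fn F :=
  fun g => ((DFunLike.coe (F := GalF F →* ℂˣ) ψ g : ℂˣ) : ℂ)

/-- smooth linear characters unramified outside `T` -/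
def Lin.unr {F : Sub K} (ψ : Lin F) (T : Set ℕ) : Prop :=
  Smt (F := F) ψ ∧ ∀ p : ℕ, p.Prime → p ∉ T → ∀ w : AlgebraicClosure K → ℝ, Plc p w →
    ∀ g : GalF F, Inr w (g : Gal(AlgebraicClosure K/K)) → ψ.fn g = 1

/-- the linear characters over totally complex fields of degree divisible by `M` which are
unramified at all finite places outside `T` (for empty `T`: class group characters), and the trivial
characters -/
def Lin.cls {F : Sub K} (ψ : Lin F) (M : ℕ) (T : Set ℕ) : Prop :=
  (IsEmpty (F →+* ℝ) ∧ M ∣ Module.finrank K F ∧ ψ.unr T) ∨ ψ.fn = fun _ => 1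

/-- `V`: a positive multiple is a combination of characters induced from linear characters of
`Gal(K̄/F')`, `F' ⊇ F` finite, unramified outside `T` -/
def InV (T : Set ℕ) {F : Sub K} (f : Fn F) : Prop :=
  Multiple (X := GalF F) f {h | ∃ (F' : Sub K) (ψ : Lin F'), F ≤ F' ∧ FinExt F' ∧ ψ.unr T ∧
    h = ind F F' ψ.fn}

/-- the same with totally complex fields `F'` of degree divisible by `M`, and trivial characters -/
def InVM (M : ℕ) (T : Set ℕ) {F : Sub K} (f : Fn F) : Prop :=
  Multiple (X := GalF F) f {h | ∃ (F' : Sub K) (ψ : Lin F'), F ≤ F' ∧ FinExt F' ∧ ψ.cls M T ∧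
    h = ind F F' ψ.fn}

/-- the local analogue of `V`: unramified linear characters of open subgroups -/
def LInV {F : Sub K} {w : AlgebraicClosure K → ℝ} (φ : LFn F w) : Prop :=
  Multiple (X := dcF F w) φ (UnrC (inF F w))

/-- **The local condition**: `f` is constant on the elements of a decomposition group outside `T`
which generate the same closed subgroup and are congruent modulo the inertia group -/
def Loc (T : Set ℕ) {F : Sub K} (f : Fn F) : Prop :=
  ∀ p : ℕ, p.Prime → p ∉ T → ∀ w : AlgebraicClosure K → ℝ, Plc p w → ∀ u v : GalF F,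
    Dcm w (u : Gal(AlgebraicClosure K/K)) → Dcm w (v : Gal(AlgebraicClosure K/K)) → SameCl u v →
    Inr w ((u⁻¹ * v : GalF F) : Gal(AlgebraicClosure K/K)) → f u = f v

/-- the field `F` as a type -/
def Fld (F : Sub K) : Type := F

noncomputable def fldField (F : Sub K) : Field (Fld F) := F.toField

attribute [instance] fldField

/-- the embedding in `K̄` -/
def Fld.val {F : Sub K} (x : Fld F) : AlgebraicClosure K := Subtype.val x

/-- the primes of `F` -/
def Prm (F : Sub K) : Type := HeightOneSpectrum (𝓞 (Fld F))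

/-- the place `w` of `K̄` lies above the prime `v` of `F` -/
def Prm.below {F : Sub K} (v : Prm F) (w : AlgebraicClosure K → ℝ) : Prop :=
  Place w ∧ ∀ y : 𝓞 (Fld F), y ∈ HeightOneSpectrum.asIdeal v ↔ w (Fld.val (y : Fld F)) < 1

/-- `v` lies below a place of `K̄` above a prime of `T` -/
def Prm.above {F : Sub K} (v : Prm F) (T : Set ℕ) : Prop :=
  ∃ p : ℕ, p.Prime ∧ p ∈ T ∧ ∃ w, v.below w ∧ Plc p w

/-- choices of places of `K̄` above all primes of `F` -/
structure Choice (F : Sub K) : Type where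
  /-- the place above `v` -/
  pl : Prm F → AlgebraicClosure K → ℝ
  above : ∀ v : Prm F, v.below (pl v)

end defs

/-- additive and inductive functions of the characters over the finite extensions of `K` -/
structure AddInd {K : Type} [Field K] {B : Type} [AddCommGroup B]
    (D : ∀ F : Sub K, Fn F → B) : Prop where
  add : ∀ F : Sub K, FinExt F → ∀ χ χ' : Fn F, Char χ → Char χ' →
    D F (plus χ χ') = D F χ + D F χ'
  ind : ∀ F F' : Sub K, F ≤ F' → FinExt F' → ∀ χ : Fn F', Char χ → D F (ind F F' χ) = D F' χ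

/-- **Local constants** for `D` -/
structure LocalConstants {K : Type} [Field K] {B : Type} [AddCommGroup B]
    (T : Set ℕ) (D : ∀ F : Sub K, Fn F → B)
    (δ : ∀ (F : Sub K) (w : AlgebraicClosure K → ℝ), LFn F w → B) : Prop where
  /-- they are additive -/
  add : ∀ (F : Sub K) (w : AlgebraicClosure K → ℝ), FinExt F → Place w →
    ∀ φ φ' : LFn F w, LVirt φ → LVirt φ' → δ F w (φ.plus φ') = δ F w φ + δ F w φ'
  /-- they vanish at the combinations of characters induced from unramified linear characters -/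
  unramified : ∀ (F : Sub K) (w : AlgebraicClosure K → ℝ), FinExt F → Place w →
    ∀ φ : LFn F w, LVirt φ → LInV φ → δ F w φ = 0
  /-- they vanish at the places above `T` -/
  above : ∀ (F : Sub K) (w : AlgebraicClosure K → ℝ), FinExt F → Place w → ¬ Outside T w →
    ∀ φ : LFn F w, LVirt φ → δ F w φ = 0
  /-- they are invariant under induction -/
  ind : ∀ (F F' : Sub K) (w : AlgebraicClosure K → ℝ), F ≤ F' → FinExt F' → Place w →
    ∀ φ : LFn F' w, LVirt φ → δ F w (lind F F' w φ) = δ F' w φ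
  /-- they are invariant under conjugation -/
  conj : ∀ (F : Sub K) (w w' : AlgebraicClosure K → ℝ) (x : GalF F), FinExt F →
    Place w → (w' = fun z => w ((x : Gal(AlgebraicClosure K/K)) z)) →
    ∀ (φ : LFn F w) (φ' : LFn F w'), LVirt φ → LVirt φ' →
      (∀ (g : dcF F w) (g' : dcF F w'), (g : GalF F) = x * g' * x⁻¹ → φ' g' = φ g) →
      δ F w' φ' = δ F w φ
  /-- they depend only on the local Galois group and the local virtual character -/
  loc : ∀ (F F' : Sub K) (w : AlgebraicClosure K → ℝ), FinExt F → FinExt F' → Place w →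
    (∀ g : Gal(AlgebraicClosure K/K), Dcm w g → (g ∈ F.fixingSubgroup ↔ g ∈ F'.fixingSubgroup)) →
    ∀ (φ : LFn F w) (φ' : LFn F' w), LVirt φ → LVirt φ' →
      (∀ (g : dcF F w) (g' : dcF F' w), (g : Gal(AlgebraicClosure K/K)) = g' → φ g = φ' g') →
      δ F w φ = δ F' w φ'
  /-- almost all local terms of a virtual character are zero -/
  finite : ∀ (F : Sub K) (c : Choice F) (f : Fn F), FinExt F → Virt f →
    {v | δ F (c.pl v) (res (c.pl v) f) ≠ 0}.Finite
  /-- the function is the sum of its local terms -/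
  sum : ∀ (F : Sub K) (c : Choice F) (f : Fn F), FinExt F → Char f →
    D F f = ∑ᶠ v, δ F (c.pl v) (res (c.pl v) f)

/-- local terms over `K` -/
structure LocalTerms {K : Type} [Field K] {B : Type} [AddCommGroup B]
    (T : Set ℕ) (c : Choice (base K)) (δ : ∀ v, LFn (base K) (c.pl v) → B) : Prop where
  add : ∀ v (φ φ' : LFn (base K) (c.pl v)), LVirt φ → LVirt φ' →
    δ v (φ.plus φ') = δ v φ + δ v φ'
  unramified : ∀ v (φ : LFn (base K) (c.pl v)), LVirt φ → LInV φ → δ v φ = 0
  above : ∀ v, v.above T → ∀ φ : LFn (base K) (c.pl v), LVirt φ → δ v φ = 0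

/-- there is a unique system of local constants for `D` -/
def HasLocalConstants {K : Type} [Field K] {B : Type} [AddCommGroup B]
    (T : Set ℕ) (D : ∀ F : Sub K, Fn F → B) : Prop :=
  (∃ δ : ∀ (F : Sub K) (w : AlgebraicClosure K → ℝ), LFn F w → B, LocalConstants T D δ) ∧
  ∀ δ δ' : ∀ (F : Sub K) (w : AlgebraicClosure K → ℝ), LFn F w → B,
    LocalConstants T D δ → LocalConstants T D δ' → ∀ (F : Sub K) (w : AlgebraicClosure K → ℝ),
      FinExt F → Place w → ∀ φ : LFn F w, LVirt φ → δ F w φ = δ' F w φ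

/-- a torsion-free divisible group -/
def TorsionFreeDivisible (B : Type) [AddCommGroup B] : Prop :=
  (∀ (n : ℕ) (b : B), 0 < n → ∃ c, n • c = b) ∧ ∀ (n : ℕ) (b : B), 0 < n → n • b = 0 → b = 0

/-- (1) **The local-global principle.** -/
def Principle (K : Type) [Field K] [NumberField K] : Prop :=
  ∀ (M : ℕ) (T : Set ℕ) (F : Sub K) (f : Fn F), 0 < M → FinExt F → Virt f →
    List.TFAE [InV T f, InVM M T f, ∀ w, Outside T w → LInV (res w f), Loc T f]

/-- (2) Linear characters, representations with inertia groups of exponent two, virtual characters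
which are unramified or have rational values on each decomposition group outside `T` -/
def Examples (K : Type) [Field K] [NumberField K] : Prop :=
  ∀ (T : Set ℕ) (F : Sub K), FinExt F →
    (∀ ψ : GalF F →* ℂˣ, Smt ψ →
      (InV T (Lin.fn ψ) ↔ Lin.unr (ψ ^ 2) T)) ∧
    (∀ (n : ℕ) (τ : GalF F →* GL (Fin n) ℂ), Smt τ →
      (∀ w : AlgebraicClosure K → ℝ, Outside T w →
        ∀ g : GalF F, Inr w (g : Gal(AlgebraicClosure K/K)) → τ g ^ 2 = 1) →
      InV T (F := F) (fun g => (τ g : Matrix (Fin n) (Fin n) ℂ).trace)) ∧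
    ∀ f : Fn F, Virt f → (∀ w : AlgebraicClosure K → ℝ, Outside T w →
      (∀ g t : GalF F, Dcm w (g : Gal(AlgebraicClosure K/K)) →
        Inr w (t : Gal(AlgebraicClosure K/K)) → f (g * t) = f g) ∨
      ∀ g : GalF F, Dcm w (g : Gal(AlgebraicClosure K/K)) → ∃ q : ℚ, f g = q) →
      InV T f

/-- (3) **The isomorphism** of the rational character ring modulo `V` with the direct sum of the
local quotients, one for each prime: existence of places, finiteness, injectivity, surjectivity; and
approximation of local virtual characters of the same degree by global ones -/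
def Isomorphism (K : Type) [Field K] [NumberField K] : Prop :=
  ∀ (T : Set ℕ) (F : Sub K), FinExt F → Nonempty (Choice F) ∧ ∀ c : Choice F,
    (∀ f : Fn F, Virt f → {v | ¬ LInV (res (c.pl v) f)}.Finite) ∧
    (∀ f : Fn F, Virt f → (InV T f ↔ ∀ v : Prm F, ¬ v.above T → LInV (res (c.pl v) f))) ∧
    (∀ (S : Finset (Prm F)) (φ : ∀ v, LFn F (c.pl v)), (∀ v ∈ S, LVirt (φ v)) →
      ∃ m : ℕ, 0 < m ∧ ∃ f : Fn F, Virt f ∧
        (∀ v ∈ S, LInV ((res (c.pl v) f).minus ((φ v).times m))) ∧
        ∀ v, v ∉ S → LInV (res (c.pl v) f)) ∧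
    (∀ (S : Finset (Prm F)) (φ : ∀ v, LFn F (c.pl v)) (d : ℂ),
      (∀ v ∈ S, LVirt (φ v) ∧ φ v 1 = d) → ∃ m : ℕ, 0 < m ∧ ∃ f : Fn F, Virt f ∧
        ∀ v ∈ S, res (c.pl v) f = (φ v).times m)

/-- (4) **Local constants** of the additive inductive functions with values in a torsion-free
divisible group which vanish at trivial and at class group characters; all local terms over `K`
occur -/
def Constants (K : Type) [Field K] [NumberField K] : Prop :=
  ∀ (B : Type) [AddCommGroup B], TorsionFreeDivisible B → ∀ T : Set ℕ,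
    (∀ (D : ∀ F : Sub K, Fn F → B) (M : ℕ), AddInd D → 0 < M →
      (∀ F : Sub K, FinExt F → ∀ ψ : Lin F, ψ.cls M T → D F ψ.fn = 0) →
      (∀ F : Sub K, FinExt F → ∀ χ χ' : Fn F, Char χ → Char χ' → Loc T (minus χ χ') →
        D F χ = D F χ') ∧ HasLocalConstants T D) ∧
    ∀ (c : Choice (base K)) (δ : ∀ v, LFn (base K) (c.pl v) → B), LocalTerms T c δ →
      ∃ D : ∀ F : Sub K, Fn F → B, AddInd D ∧
        (∀ F : Sub K, FinExt F → ∀ ψ : Lin F, ψ.unr T → D F ψ.fn = 0) ∧
        ∀ f : Fn (base K), Char f → D (base K) f = ∑ᶠ v, δ v (res (c.pl v) f)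


/-- the filter of the sufficiently large levels -/
def large (K : Type) [Field K] [NumberField K] : Filter (Lvl K) :=
  ⨅ N₀ : {N₀ : Sub K // FinExt N₀}, Filter.principal {ℓ | N₀.1 ≤ ℓ.N}

/-- the quotient of `ℂ^*` by a subgroup, written additively -/
abbrev Quot (H : Subgroup ℂˣ) : Type := Additive (ℂˣ ⧸ H)

/-- the class of a nonzero number in the quotient -/
noncomputable def cl (H : Subgroup ℂˣ) (z : ℂ) : Quot H :=
  Additive.ofMul (QuotientGroup.mk (if h : z = 0 then 1 else Units.mk0 z h))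

/-- functions of the level with values in `ℂ^*/H`, modulo equality at all sufficiently large
levels -/
abbrev Germs (K : Type) [Field K] [NumberField K] (H : Subgroup ℂˣ) : Type :=
  Filter.Germ (large K) (Quot H)

/-- the numbers `A_S(χ, φ)` in `ℂ^*/H` -/
noncomputable def number {K : Type} [Field K] [NumberField K] (H : Subgroup ℂˣ) (F : Sub K)
    (χ : Fn F) : Germs K H :=
  ((fun ℓ : Lvl K => cl H (ℓ.A χ) : Lvl K → Quot H) : Filter.Germ (large K) (Quot H))

/-- **The defect** `A_S(χ, φ)^σ / A_S(χ^σ, φ)` of Stark's conjecture in `ℂ^*/H` -/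
noncomputable def defect {K : Type} [Field K] [NumberField K] (H : Subgroup ℂˣ) (σ : ℂ ≃+* ℂ)
    (F : Sub K) (χ : Fn F) : Germs K H :=
  ((fun ℓ : Lvl K => cl H (σ (ℓ.A χ) / ℓ.A (conj σ χ)) : Lvl K → Quot H) :
    Filter.Germ (large K) (Quot H))

/-- the algebraic numbers in `ℂ^*` -/
def algUnits : Subgroup ℂˣ where
  carrier := {u | IsAlgebraic ℚ (u : ℂ)}
  one_mem' := isAlgebraic_one
  mul_mem' := fun {a b} ha hb => by
    change IsAlgebraic ℚ ((a * b : ℂˣ) : ℂ)
    rw [Units.val_mul]
    exact IsAlgebraic.mul ha hb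
  inv_mem' := fun {a} ha => by
    change IsAlgebraic ℚ ((a⁻¹ : ℂˣ) : ℂ)
    rw [Units.val_inv_eq_inv_val]
    exact IsAlgebraic.inv ha

/-- for all sufficiently large levels -/
def Eventually {K : Type} [Field K] [NumberField K] (P : Lvl K → Prop) : Prop :=
  ∃ N₀ : Sub K, FinExt N₀ ∧ ∀ ℓ : Lvl K, N₀ ≤ ℓ.N → P ℓ

/-- Stark's equality up to roots of unity -/
def StarkRoots {K : Type} [Field K] [NumberField K] {F : Sub K} (χ : Fn F) (σ : ℂ ≃+* ℂ) : Prop :=
  Eventually fun ℓ : Lvl K => ∃ m : ℕ, 0 < m ∧ σ (ℓ.A χ) ^ m = ℓ.A (conj σ χ) ^ m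

/-- Stark's number is algebraic -/
def AlgNumber {K : Type} [Field K] [NumberField K] {F : Sub K} (χ : Fn F) : Prop :=
  Eventually fun ℓ : Lvl K => IsAlgebraic ℚ (ℓ.A χ)

/-- (7) **Stark's conjecture up to roots of unity**, granted for trivial and for class group
characters -/
def Stark (K : Type) [Field K] [NumberField K] : Prop :=
  ∀ (σ : ℂ ≃+* ℂ) (M : ℕ) (T : Set ℕ), 0 < M →
    (∀ F : Sub K, FinExt F → ∀ ψ : Lin F, ψ.cls M T → StarkRoots ψ.fn σ) →
    (∀ F : Sub K, FinExt F → ∀ χ : Fn F, Char χ → InV T χ → StarkRoots χ σ) ∧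
    HasLocalConstants T (defect (K := K) (CommGroup.torsion ℂˣ) σ)

/-- (8) **Algebraicity** of Stark's numbers, granted for trivial and for class group characters -/
def Algebraicity (K : Type) [Field K] [NumberField K] : Prop :=
  ∀ (M : ℕ) (T : Set ℕ), 0 < M →
    (∀ F : Sub K, FinExt F → ∀ ψ : Lin F, ψ.cls M T → AlgNumber ψ.fn) →
    (∀ F : Sub K, FinExt F → ∀ χ : Fn F, Char χ → InV T χ → AlgNumber χ) ∧
    HasLocalConstants T (number (K := K) algUnits)

end Pool.Agent.Q20.RS.RL
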