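import Pool.Agent.Q20.RL.Lod
import Pool.Agent.Q20.LG.Opt
import Pool.Agent.Q20.RS.BasEq

/-!
# The local-global principle and local constants: proofs
-/

set_option autoImplicit false
set_option linter.unusedSectionVars false

namespace Pool.Agent.Q20.RS.RL

open NumberField IsDedekindDomain
open Pool.Agent.Q246.BI (Smooth IsCharacter induced)
open Pool.Agent.Q273.SP (IsPl Dec Ine)
open Pool.Agent.Q20.LG (RChar Unr GenU GenM UnrAt decF ineF Above AboveT LocCond Indu DD)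
open scoped Classical

section
variable {K : Type} [Field K] [NumberField K]

theorem mem_one_nsmul {X : Type} {f : X → ℂ} {A : AddSubgroup (X → ℂ)} (h : f ∈ A) :
    1 • f ∈ A := by rwa [one_nsmul]

theorem plc_eq (p : ℕ) (w : AlgebraicClosure K → ℝ) : Plc p w = IsPl p w := propext (plc_iff p w)

theorem loc_iff (T : Set ℕ) {F : Sub K} (f : Fn F) :
    Loc T f ↔ Pool.Agent.Q20.LG.Cond (Pool.Agent.Q20.LG.TT T F) f := by
  unfold Loc
  simp only [plc_eq]
  exact Pool.Agent.Q20.LG.locCond_iff T F f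

theorem below_iff {F : Sub K} (v : Prm F) (w : AlgebraicClosure K → ℝ) :
    v.below w ↔ Above F v w := by
  unfold Prm.below Place
  simp only [plc_eq]
  exact Iff.rfl

theorem above_iff {F : Sub K} [FiniteDimensional K F] (v : Prm F) (T : Set ℕ) :
    v.above T ↔ AboveT T (F := F) v := by
  constructor
  · rintro ⟨p, hp, hT, w, hw, hpw⟩
    exact ⟨p, hp, hT, (Pool.Agent.Q20.LG.above_prime ((below_iff v w).1 hw) hp).2
      ((plc_iff p w).1 hpw)⟩
  · rintro ⟨p, hp, hT, hpv⟩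
    obtain ⟨w, hw⟩ := Pool.Agent.Q20.LG.exists_place F v
    exact ⟨p, hp, hT, w, (below_iff v w).2 hw,
      (plc_iff p w).2 ((Pool.Agent.Q20.LG.above_prime hw hp).1 hpv)⟩

theorem unr_iff {F : Sub K} (ψ : F.fixingSubgroup →* ℂˣ) (T : Set ℕ) :
    Lin.unr (F := F) ψ T ↔ Smooth F ψ ∧ UnrAt T F ψ := by
  unfold Lin.unr
  simp only [plc_eq]
  refine and_congr_right fun _ => ?_
  refine forall_congr' fun p => forall_congr' fun hp => forall_congr' fun hT =>
    forall_congr' fun w => forall_congr' fun hw => forall_congr' fun g => forall_congr' fun hg => ?_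
  change ((ψ g : ℂˣ) : ℂ) = 1 ↔ ψ g = 1
  rw [Units.val_eq_one]

theorem fn_one_iff {F : Sub K} (ψ : F.fixingSubgroup →* ℂˣ) :
    (Lin.fn (F := F) ψ = fun _ => 1) ↔ ψ = 1 := by
  constructor
  · intro h
    ext g
    have h1 := congrFun h g
    exact h1
  · rintro rfl
    rfl

theorem inV_gen {T : Set ℕ} {F : Sub K} (f : F.fixingSubgroup → ℂ) :
    InV (F := F) T f ↔ ∃ m : ℕ, 0 < m ∧ m • f ∈ AddSubgroup.closure (GenU T F) := by
  have h : {h : F.fixingSubgroup → ℂ | ∃ (F' : Sub K) (ψ : Lin F'), F ≤ F' ∧ FinExt F' ∧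
      ψ.unr T ∧ h = ind F F' ψ.fn} = GenU T F := by
    ext h
    constructor
    · rintro ⟨F', ψ, h1, h2, h3, h4⟩
      obtain ⟨h5, h6⟩ := (unr_iff ψ T).1 h3
      exact ⟨F', ψ, h1, h2, h5, h6, h4⟩
    · rintro ⟨F', ψ, h1, h2, h5, h6, h4⟩
      exact ⟨F', ψ, h1, h2, (unr_iff ψ T).2 ⟨h5, h6⟩, h4⟩
  exact iff_of_eq (congrArg (fun A : Set (F.fixingSubgroup → ℂ) =>
    ∃ m : ℕ, 0 < m ∧ m • f ∈ AddSubgroup.closure A) h)

theorem inVM_gen {M : ℕ} {T : Set ℕ} {F : Sub K} (f : F.fixingSubgroup → ℂ) :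
    InVM (F := F) M T f ↔ ∃ m : ℕ, 0 < m ∧ m • f ∈ AddSubgroup.closure (GenM M T F) := by
  have h : {h : F.fixingSubgroup → ℂ | ∃ (F' : Sub K) (ψ : Lin F'), F ≤ F' ∧ FinExt F' ∧
      ψ.cls M T ∧ h = ind F F' ψ.fn} = GenM M T F := by
    ext h
    constructor
    · rintro ⟨F', ψ, h1, h2, h3 | h3, h4⟩
      · obtain ⟨h5, h6⟩ := (unr_iff ψ T).1 h3.2.2
        exact ⟨F', ψ, h1, h2, h5, Or.inl ⟨h3.1, h3.2.1, h6⟩, h4⟩
      · have h5 := (fn_one_iff ψ).1 h3
        have h6 : Smooth F' (1 : F'.fixingSubgroup →* ℂˣ) :=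
          ⟨⊥, inferInstanceAs (FiniteDimensional K (⊥ : Sub K)), fun _ _ => rfl⟩
        refine ⟨F', ψ, h1, h2, ?_, Or.inr h5, h4⟩
        rw [h5]
        exact h6
    · rintro ⟨F', ψ, h1, h2, h5, h3 | h3, h4⟩
      · exact ⟨F', ψ, h1, h2, Or.inl ⟨h3.1, h3.2.1, (unr_iff ψ T).2 ⟨h5, h3.2.2⟩⟩, h4⟩
      · exact ⟨F', ψ, h1, h2, Or.inr ((fn_one_iff ψ).2 h3), h4⟩
  exact iff_of_eq (congrArg (fun A : Set (F.fixingSubgroup → ℂ) =>
    ∃ m : ℕ, 0 < m ∧ m • f ∈ AddSubgroup.closure A) h)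

theorem conj_character {F : Sub K} {χ : Fn F} (h : Char χ) (σ : ℂ ≃+* ℂ) : Char (conj σ χ) := by
  obtain ⟨n, τ, ⟨E, hE, hs⟩, hτ⟩ := h
  refine ⟨n, (Matrix.GeneralLinearGroup.map (σ : ℂ →+* ℂ)).comp τ, ⟨E, hE, fun g hg => ?_⟩,
    fun g => ?_⟩
  · rw [MonoidHom.comp_apply, hs g hg, map_one]
  · change σ (χ g) = _
    rw [hτ]
    change σ (τ g : Matrix (Fin n) (Fin n) ℂ).trace =
      ((τ g : Matrix (Fin n) (Fin n) ℂ).map (σ : ℂ →+* ℂ)).trace
    simp [Matrix.trace]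

theorem conj_induced (F F' : Sub K) (hfd : FinExt F') (χ : Fn F') (σ : ℂ ≃+* ℂ) :
    conj σ (ind F F' χ) = ind F F' (conj σ χ) := by
  have hfd : FiniteDimensional K F' := hfd
  have hfin : Finite (F.fixingSubgroup ⧸ F'.fixingSubgroup.subgroupOf F.fixingSubgroup) :=
    Pool.Agent.Q246.BI.nn_finite F F'
  have : Fintype (F.fixingSubgroup ⧸ F'.fixingSubgroup.subgroupOf F.fixingSubgroup) :=
    Fintype.ofFinite _
  funext g
  change σ (induced F F' χ g) = induced F F' (fun g => σ (χ g)) g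
  unfold induced
  rw [finsum_eq_sum_of_fintype, finsum_eq_sum_of_fintype, map_sum]
  refine Finset.sum_congr rfl fun x _ => ?_
  split_ifs
  · rfl
  · exact map_zero σ

theorem inV_iff {T : Set ℕ} {F : Sub K} (hF : FinExt F) {f : Fn F} (hf : Virt f) :
    InV T f ↔ Loc T f := by
  have : FiniteDimensional K F := hF
  exact ((inV_gen f).trans (Pool.Agent.Q20.LG.global_criterion Nat.one_pos T F hf).1).trans
    (loc_iff T f).symm

theorem principle : Principle K := by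
  intro M T F f hM hF hf
  have : FiniteDimensional K F := hF
  obtain ⟨h1, h2⟩ := Pool.Agent.Q20.LG.global_criterion hM T F hf
  have h3 := Pool.Agent.Q20.LG.local_global hM T F hf
  have h4 := loc_iff T f
  tfae_have 1 ↔ 4 := ((inV_gen f).trans h1).trans h4.symm
  tfae_have 2 ↔ 4 := ((inVM_gen f).trans h2).trans h4.symm
  tfae_have 2 ↔ 3 := ((inVM_gen f).trans h3).trans
    ⟨fun h w ⟨p, hp, hpT, hw⟩ => h p hp hpT w ((plc_iff p w).1 hw),
      fun h p hp hpT w hw => h w ⟨p, hp, hpT, (plc_iff p w).2 hw⟩⟩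
  tfae_finish

theorem lin_char {F : Sub K} (ψ : F.fixingSubgroup →* ℂˣ) (hψ : Smooth F ψ) :
    Char (Lin.fn ψ) := by
  refine ⟨1, (Units.map (Matrix.scalar (Fin 1) (α := ℂ)).toMonoidHom).comp ψ, ?_, fun g => ?_⟩
  · obtain ⟨E', hE', hEψ⟩ := hψ
    exact ⟨E', hE', fun g hg => by rw [MonoidHom.comp_apply, hEψ g hg, map_one]⟩
  · change ((ψ g : ℂˣ) : ℂ) = (Matrix.scalar (Fin 1) ((ψ g : ℂˣ) : ℂ)).trace
    simp [Matrix.trace]

theorem char_virt {F : Sub K} (hF : FinExt F) {χ : Fn F} (h : Char χ) : Virt χ := by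
  have : FiniteDimensional K F := hF
  exact AddSubgroup.subset_closure ((Pool.Agent.Q20.LG.isChar_iff F χ).1 h)

theorem examples : Examples K := by
  intro T F hF
  have : FiniteDimensional K F := hF
  refine ⟨fun ψ hψ => ?_, fun n τ hτ h => ?_, fun f hf h => ?_⟩
  · have hψ2 : Smooth F (ψ ^ 2) := by
      obtain ⟨E, hE, h⟩ := hψ
      exact ⟨E, hE, fun g hg => by rw [MonoidHom.pow_apply, h g hg, one_pow]⟩
    refine (inV_iff hF (char_virt hF (lin_char ψ hψ))).trans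
      (((loc_iff T _).trans (Pool.Agent.Q20.LG.lin_iff T F ψ hψ)).trans
        ⟨fun h => (unr_iff _ T).2 ⟨hψ2, h⟩, fun h => ((unr_iff _ T).1 h).2⟩)
  · obtain ⟨E, hE, hEτ⟩ := hτ
    have hEf : FiniteDimensional K E := hE
    refine (inV_iff hF (char_virt hF ⟨n, τ, ⟨E, hE, hEτ⟩, fun g => rfl⟩)).2
      ((loc_iff T _).2 ?_)
    exact Pool.Agent.Q20.LG.cond_exp_two T F τ
      (U := E.fixingSubgroup.subgroupOf F.fixingSubgroup) (Pool.Agent.Q20.LG.isOpen_sub F E)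
      (fun g hg => hEτ g hg) (fun p hp hpT w hw => h w ⟨p, hp, hpT, (plc_iff p w).2 hw⟩)
  · exact (inV_iff hF hf).2 ((loc_iff T _).2
      (Pool.Agent.Q20.LG.cond_rat T F hf fun p hp hpT w hw =>
        h w ⟨p, hp, hpT, (plc_iff p w).2 hw⟩))

theorem isomorphism : Isomorphism K := by
  intro T F hF
  have : FiniteDimensional K F := hF
  refine ⟨?_, ?_⟩
  · choose w hw using fun v => Pool.Agent.Q20.LG.exists_place F v
    exact ⟨⟨w, fun v => (below_iff v _).2 (hw v)⟩⟩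
  · rintro ⟨w, hw'⟩
    have hw : ∀ v : HeightOneSpectrum (𝓞 F), Above F v (w v) := fun v => (below_iff v _).1 (hw' v)
    refine ⟨fun f hf => ?_, fun f hf => ?_, fun S φ hφ => ?_, fun S φ d hφ => ?_⟩
    · obtain ⟨T₁, hT₁, h1⟩ := Pool.Agent.Q20.LG.cond_unram F hf
      refine (Pool.Agent.Q20.LG.finite_above F T₁ hT₁).subset fun v hv => ?_
      by_contra hcon
      apply hv
      obtain ⟨⟨q, hq, hqw⟩, -⟩ := hw v
      have hqT : q ∉ T₁ := fun h => hcon ⟨q, h, (Pool.Agent.Q20.LG.above_prime (hw v) hq).2 hqw⟩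
      exact (Pool.Agent.Q20.LG.local_criterion F hq hqw
        (Pool.Agent.Q20.LG.rchar_res (decF F (w v)) hf)).2 (h1 q hq hqT (w v) hqw)
    · refine (((inV_gen f).trans (Pool.Agent.Q20.LG.global_criterion Nat.one_pos T F hf).1).trans
        (Pool.Agent.Q20.LG.chosen_iff T F hw hf)).trans ?_
      exact forall_congr' fun v => imp_congr_left (not_congr (above_iff v T).symm)
    · exact Pool.Agent.Q20.LG.surjective F hw S φ hφ
    · obtain ⟨m, hm, f, hf, h1⟩ := Pool.Agent.Q20.LG.approx (ι := {v // v ∈ S})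
        (fun v => decF F (w v.1))
        (fun v => (Pool.Agent.Q20.LG.isClosed_dec (w v.1)).preimage continuous_subtype_val)
        (fun i j x a b ha hb hab ha1 => by
          obtain ⟨h1, h2⟩ := Pool.Agent.Q20.LG.dec_indep F hw i.1 j.1 x a b ha hb hab ha1
          exact ⟨Subtype.ext h1, h2⟩) (fun v => φ v.1) (fun v => (hφ v.1 v.2).1) d
        (fun v => (hφ v.1 v.2).2)
      exact ⟨m, hm, f, hf, fun v hv => funext fun g => h1 ⟨v, hv⟩ g⟩

variable {B : Type} [AddCommGroup B]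

theorem AddInd.add' {D : ∀ F : Sub K, Fn F → B} (h : AddInd D) (F : Sub K)
    (hF : FiniteDimensional K F) (χ χ' : F.fixingSubgroup → ℂ) (h1 : IsCharacter F χ)
    (h2 : IsCharacter F χ') : D F (χ + χ') = D F χ + D F χ' := h.add F hF χ χ' h1 h2

theorem AddInd.ind' {D : ∀ F : Sub K, Fn F → B} (h : AddInd D) (F F' : Sub K) (hle : F ≤ F')
    (hF' : FiniteDimensional K F') (χ : F'.fixingSubgroup → ℂ) (h1 : IsCharacter F' χ) :
    D F (induced F F' χ) = D F' χ := h.ind F F' hle hF' χ h1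

/-- bundled form of the local constants -/
theorem bundle {T : Set ℕ} {D : ∀ F : Sub K, Fn F → B}
    {δ : ∀ (F : Sub K) (w : AlgebraicClosure K → ℝ), LFn F w → B} (h : LocalConstants T D δ) :
    ∀ (F : Sub K) (w : AlgebraicClosure K → ℝ), FinExt F → Place w →
      ∃ d : RChar (decF F w) →+ B, ∀ φ : RChar (decF F w), d φ = δ F w (φ : decF F w → ℂ) :=
  fun F w hF hw => ⟨AddMonoidHom.mk' (fun φ => δ F w (φ : decF F w → ℂ))
    fun a b => h.add F w hF hw a.1 b.1 a.2 b.2, fun _ => rfl⟩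

theorem unique {T : Set ℕ} {D : ∀ F : Sub K, Fn F → B} (htfd : TorsionFreeDivisible B)
    {δ δ' : ∀ (F : Sub K) (w : AlgebraicClosure K → ℝ), LFn F w → B}
    (h : LocalConstants T D δ) (h' : LocalConstants T D δ') (F : Sub K)
    (w : AlgebraicClosure K → ℝ) (hF : FinExt F) (hw : Place w) (φ : LFn F w) (hφ : LVirt φ) :
    δ F w φ = δ' F w φ := by
  have hFd : FiniteDimensional K F := hF
  obtain ⟨p, hp, hpw⟩ := hw
  obtain ⟨v₀, hv₀, -⟩ := Pool.Agent.Q20.LG.exists_above F hp ((plc_iff p w).1 hpw)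
  obtain ⟨w', hw', rfl⟩ := Pool.Agent.Q20.LG.exists_family F hv₀
  have hw'' : ∀ v : Prm F, v.below (w' v) := fun v => (below_iff v _).2 (hw' v)
  have hpl : ∀ v, Place (w' v) := fun v => (hw'' v).1
  choose d hd using fun v => bundle h F (w' v) hF (hpl v)
  choose d' hd' using fun v => bundle h' F (w' v) hF (hpl v)
  have hkill : ∀ (v) (y : RChar (decF F (w' v))),
      (y : decF F (w' v) → ℂ) ∈ AddSubgroup.closure (Unr (ineF F (w' v))) →
        LInV (F := F) (w := w' v) (y : decF F (w' v) → ℂ) := fun v y hy =>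
    ⟨1, Nat.one_pos, mem_one_nsmul hy⟩
  have h1 := Pool.Agent.Q20.LG.unique_zeroR htfd.2 F hw' (fun v => d v - d' v)
    (fun v y hy => by
      rw [AddMonoidHom.sub_apply, hd, hd', h.unramified F _ hF (hpl v) _ y.2 (hkill v y hy),
        h'.unramified F _ hF (hpl v) _ y.2 (hkill v y hy), sub_zero])
    (fun f hf => by
      have h4 : (fun v => (d v - d' v) (Pool.Agent.Q20.LG.resR F (w' v) f)) =
          fun v => δ F (w' v) (res (w' v) (f : F.fixingSubgroup → ℂ)) -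
            δ' F (w' v) (res (w' v) (f : F.fixingSubgroup → ℂ)) := by
        funext v
        rw [AddMonoidHom.sub_apply, hd, hd']
        rfl
      have h7 := h.finite F ⟨w', hw''⟩ f.1 hF f.2
      have h8 := h'.finite F ⟨w', hw''⟩ f.1 hF f.2
      have h9 : (∑ᶠ v, (δ F (w' v) (res (w' v) (f : F.fixingSubgroup → ℂ)) -
          δ' F (w' v) (res (w' v) (f : F.fixingSubgroup → ℂ)))) =
          (∑ᶠ v, δ F (w' v) (res (w' v) (f : F.fixingSubgroup → ℂ))) -
          ∑ᶠ v, δ' F (w' v) (res (w' v) (f : F.fixingSubgroup → ℂ)) := finsum_sub_distrib h7 h8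
      rw [h4]
      refine h9.trans ?_
      have h5 := h.sum F ⟨w', hw''⟩ f.1 hF hf
      have h6 := h'.sum F ⟨w', hw''⟩ f.1 hF hf
      rw [sub_eq_zero]
      exact h5.symm.trans h6) v₀ ⟨φ, hφ⟩
  rw [AddMonoidHom.sub_apply, hd, hd', sub_eq_zero] at h1
  exact h1

theorem not_outside {T : Set ℕ} {w : AlgebraicClosure K → ℝ} (hw : Place w) (h : ¬ Outside T w) :
    ∃ p : ℕ, p.Prime ∧ p ∈ T ∧ IsPl p w := by
  obtain ⟨p, hp, hpw⟩ := hw
  refine ⟨p, hp, ?_, (plc_iff p w).1 hpw⟩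
  by_contra hpT
  exact h ⟨p, hp, hpT, hpw⟩

theorem Place.isPl {w : AlgebraicClosure K → ℝ} (hw : Place w) : ∃ p : ℕ, p.Prime ∧ IsPl p w := by
  obtain ⟨p, hp, hpw⟩ := hw
  exact ⟨p, hp, (plc_iff p w).1 hpw⟩

theorem lind_eq (F F' : Sub K) (w : AlgebraicClosure K → ℝ) (φ : LFn F' w) :
    lind F F' w φ = Pool.Agent.Q20.LG.inducedDec F F' w φ := by
  have key : (fun h : DD F F' w => φ.zext h.1.1.1) =
      fun h => φ (Pool.Agent.Q20.LG.toD F F' w h) := by
    funext h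
    have e : ∃ g : dcF F' w, g.1.1 = h.1.1.1 := ⟨⟨⟨h.1.1.1, h.2⟩, h.1.2⟩, rfl⟩
    unfold LFn.zext
    rw [dif_pos e]
    congr 1
    exact Subtype.ext (Subtype.ext e.choose_spec)
  exact congrArg (Indu (DD F F' w)) key

theorem fin_base : FinExt (base K) := inferInstanceAs (FiniteDimensional K (⊥ : Sub K))

theorem existence {T : Set ℕ} {D : ∀ F : Sub K, Fn F → B} (htfd : TorsionFreeDivisible B)
    (hex : ∃ d : ∀ (F : Sub K) (w : AlgebraicClosure K → ℝ), RChar (decF F w) →+ B,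
      Pool.Agent.Q20.LG.LocalConstants T D d) :
    ∃ δ : ∀ (F : Sub K) (w : AlgebraicClosure K → ℝ), LFn F w → B, LocalConstants T D δ := by
  obtain ⟨d, h⟩ := hex
  let δ : ∀ (F : Sub K) (w : AlgebraicClosure K → ℝ), LFn F w → B := fun F w φ =>
    if hφ : LVirt φ then d F w ⟨φ, hφ⟩ else 0
  have hδ : ∀ (F : Sub K) (w : AlgebraicClosure K → ℝ) (φ : LFn F w) (hφ : LVirt φ),
      δ F w φ = d F w ⟨φ, hφ⟩ := fun F w φ hφ => dif_pos hφ
  have hres : ∀ (F : Sub K) (w : AlgebraicClosure K → ℝ) (f : Fn F), Virt f →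
      LVirt (res w f) := fun F w f hf => Pool.Agent.Q20.LG.rchar_res (decF F w) hf
  refine ⟨δ, ?_, ?_, ?_, ?_, ?_, ?_, ?_, ?_⟩
  · intro F w hF hw φ φ' hφ hφ'
    have h1 : LVirt (φ.plus φ') :=
      (RChar (decF F w)).add_mem hφ hφ'
    rw [hδ F w _ h1, hδ F w _ hφ, hδ F w _ hφ', ← map_add]
    rfl
  · intro F w hF hw φ hφ hv
    obtain ⟨p, hp, hpw⟩ := hw.isPl
    rw [hδ F w _ hφ]
    exact Pool.Agent.Q20.LG.kill_satR htfd.2 (d F w)
      (fun y hy => h.unramified F hF p hp w hpw y hy) hv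
  · intro F w hF hw hT φ hφ
    obtain ⟨p, hp, hpT, hpw⟩ := not_outside hw hT
    rw [hδ F w _ hφ, h.above F hF p hp hpT w hpw]
    rfl
  · intro F F' w hle hF' hw φ hφ
    obtain ⟨p, hp, hpw⟩ := hw.isPl
    have h1 := h.ind F F' hle hF' p hp w hpw ⟨φ, hφ⟩
    rw [hδ F' w _ hφ, ← h1, lind_eq]
    exact hδ F w _ (Pool.Agent.Q20.LG.indD F F' hF' w ⟨φ, hφ⟩).2
  · intro F w w' x hF hw hw' φ φ' hφ hφ' hconj
    subst hw'
    obtain ⟨p, hp, hpw⟩ := hw.isPl
    have h1 := h.conj F hF p hp w hpw x ⟨φ, hφ⟩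
    rw [hδ F w _ hφ, hδ F _ _ hφ', ← h1]
    congr 1
    apply Subtype.ext
    funext g'
    exact hconj (Pool.Agent.Q20.LG.conjD F w x g') g' rfl
  · intro F F' w hF hF' hw hg φ φ' hφ hφ' hs
    obtain ⟨p, hp, hpw⟩ := hw.isPl
    rw [hδ F w _ hφ, hδ F' w _ hφ']
    exact h.local hF hF' hp hpw hg _ _ fun g hd h1 h2 => hs ⟨⟨g, h1⟩, hd⟩ ⟨⟨g, h2⟩, hd⟩ rfl
  · intro F c f hF hf
    have h1 := h.finite F hF c.pl (fun v => (below_iff v _).1 (c.above v)) ⟨f, hf⟩
    refine h1.subset fun v hv => ?_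
    change δ F (c.pl v) (res (c.pl v) f) ≠ 0 at hv
    rw [hδ F _ _ (hres F _ f hf)] at hv
    exact hv
  · intro F c f hF hf
    have hf' := char_virt hF hf
    have h1 := h.sum F hF c.pl (fun v => (below_iff v _).1 (c.above v)) ⟨f, hf'⟩ hf
    refine h1.trans (finsum_congr fun v => ?_)
    rw [hδ F _ _ (hres F _ f hf')]
    rfl

theorem cls_hyp {D : ∀ F : Sub K, Fn F → B} {M : ℕ} {T : Set ℕ}
    (hD : ∀ F : Sub K, FinExt F → ∀ ψ : Lin F, ψ.cls M T → D F ψ.fn = 0) :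
    (∀ F : Sub K, FiniteDimensional K F → D F (fun _ => 1) = 0) ∧
    ∀ F : Sub K, FiniteDimensional K F → IsEmpty (F →+* ℝ) → M ∣ Module.finrank K F →
      ∀ ψ : F.fixingSubgroup →* ℂˣ, Smooth F ψ → UnrAt T F ψ →
        D F (fun g => ((ψ g : ℂˣ) : ℂ)) = 0 := by
  constructor
  · intro F hF
    have h1 : Lin.fn (1 : F.fixingSubgroup →* ℂˣ) = fun _ => (1 : ℂ) := rfl
    have h2 := hD F hF (1 : F.fixingSubgroup →* ℂˣ) (Or.inr h1)
    exact h2
  · exact fun F hF he hM ψ hs hu => hD F hF ψ (Or.inl ⟨he, hM, (unr_iff ψ T).2 ⟨hs, hu⟩⟩)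

theorem constants : Constants K := by
  intro B _ htfd T
  refine ⟨fun D M hDD hM hD => ?_, fun c δ hδ => ?_⟩
  · obtain ⟨hD1, hD2⟩ := cls_hyp hD
    refine ⟨fun F hF χ χ' hχ hχ' hc => ?_, existence htfd
      (Pool.Agent.Q20.LG.exists_constants D hDD.add' hDD.ind' htfd.1 htfd.2 hD1 hM T hD2),
      fun δ δ' h h' F w hF hw φ hφ => unique htfd h h' F w hF hw φ hφ⟩
    have : FiniteDimensional K F := hF
    choose w hw using fun v => Pool.Agent.Q20.LG.exists_place F v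
    obtain ⟨δ, hδ, -⟩ := Pool.Agent.Q20.LG.local_terms D hDD.add' hDD.ind' htfd.1 htfd.2 hD1 hM T
      hD2 F w hw
    exact hδ.eq_of_cond htfd.2 hw hχ hχ' ((loc_iff T _).1 hc)
  · let d : ∀ v, RChar (decF (base K) (c.pl v)) →+ B := fun v =>
      AddMonoidHom.mk' (fun φ => δ v (φ : decF (base K) (c.pl v) → ℂ))
        fun a b => hδ.add v a.1 b.1 a.2 b.2
    have hfd : FiniteDimensional K (base K) := fin_base
    obtain ⟨D, ha, hi, hz, hl⟩ := Pool.Agent.Q20.LG.converse htfd.2 T c.pl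
      (fun v => (below_iff v _).1 (c.above v)) d
      (fun v y hy => hδ.unramified v _ y.2 ⟨1, Nat.one_pos, mem_one_nsmul hy⟩)
      (fun v hv => AddMonoidHom.ext fun y => hδ.above v ((above_iff v T).2 hv) _ y.2)
    refine ⟨D, ⟨fun F hF χ χ' h h' => ha F hF χ χ' h h', fun F F' hle hF' χ h =>
      hi F F' hle hF' χ h⟩, fun F hF ψ hψ => hz F hF ψ hψ.1 ((unr_iff ψ T).1 hψ).2, fun f hf => ?_⟩
    exact hl.sum ⟨f, char_virt fin_base hf⟩ hf


end

end Pool.Agent.Q20.RS.RL
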